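import Mathlib

namespace Pool.Agent.MP_6f2ed2_nt.H35

open Complex Filter Topology Set MeasureTheory
open scoped Real

theorem integrableOn_gamma {a z : ℂ} (ha : 0 < a.re) (hz : 0 < z.re) :
    IntegrableOn (fun t : ℝ => (t : ℂ) ^ (a - 1) * exp (-(z * t))) (Ioi 0) := by
  have h := integrableOn_rpow_mul_exp_neg_mul_rpow (p := 1) (s := a.re - 1) (b := z.re)
    (by linarith) one_pos hz
  refine h.mono' ?_ ?_
  · refine ContinuousOn.aestronglyMeasurable (fun t ht => ?_) measurableSet_Ioi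
    exact ((continuousAt_ofReal_cpow_const t _ (Or.inr (ne_of_gt ht))).mul
      (by fun_prop)).continuousWithinAt
  · refine (ae_restrict_iff' measurableSet_Ioi).mpr (Eventually.of_forall fun t ht => ?_)
    rw [norm_mul, norm_cpow_eq_rpow_re_of_pos ht, norm_exp]
    simp

theorem gamma_cplx {a z : ℂ} (ha : 0 < a.re) (hz : 0 < z.re) :
    ∫ t : ℝ in Ioi 0, (t : ℂ) ^ (a - 1) * exp (-(z * t)) = z ^ (-a) * Gamma a := by
  let U : Set ℂ := {z | 0 < z.re}
  have hUo : IsOpen U := isOpen_lt continuous_const continuous_re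
  have hd1 : DifferentiableOn ℂ
      (fun z : ℂ => ∫ t : ℝ in Ioi 0, (t : ℂ) ^ (a - 1) * exp (-(z * t))) U := by
    intro z0 hz0
    have hz0' : 0 < z0.re := hz0
    have hs : {z : ℂ | z0.re / 2 < z.re} ∈ 𝓝 z0 :=
      (isOpen_lt continuous_const continuous_re).mem_nhds (by simp only [mem_ofPred_eq]; linarith)
    have hb := integrableOn_rpow_mul_exp_neg_mul_rpow (p := 1) (s := a.re) (b := z0.re / 2)
      (by linarith) one_pos (by linarith)
    refine (hasDerivAt_integral_of_dominated_loc_of_deriv_le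
      (F := fun (z : ℂ) (t : ℝ) => (t : ℂ) ^ (a - 1) * exp (-(z * t)))
      (F' := fun (z : ℂ) (t : ℝ) => -((t : ℂ) ^ (a + 1 - 1) * exp (-(z * t)))) hs ?_
      (integrableOn_gamma ha hz0') ?_ ?_ hb ?_).2.differentiableAt.differentiableWithinAt
    · filter_upwards [hUo.mem_nhds hz0] with z hz using (integrableOn_gamma ha hz).1
    · exact (integrableOn_gamma (a := a + 1) (by simp; linarith) hz0').1.neg
    · refine (ae_restrict_iff' measurableSet_Ioi).mpr (Eventually.of_forall fun t ht z hz => ?_)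
      have ht' : 0 < t := ht
      have hz' : z0.re / 2 < z.re := hz
      rw [norm_neg, norm_mul, norm_cpow_eq_rpow_re_of_pos ht, norm_exp]
      simp only [add_sub_cancel_right, neg_re, mul_re, ofReal_re, ofReal_im, mul_zero, sub_zero,
        Real.rpow_one]
      gcongr
      nlinarith
    · refine (ae_restrict_iff' measurableSet_Ioi).mpr (Eventually.of_forall fun t ht z _ => ?_)
      have ht' : (t : ℂ) ≠ 0 := ofReal_ne_zero.mpr (ne_of_gt ht)
      have h1 : HasDerivAt (fun z : ℂ => exp (-(z * t))) (exp (-(z * t)) * -(1 * t)) z :=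
        ((hasDerivAt_id z).mul_const (t : ℂ)).neg.cexp
      refine (h1.const_mul _).congr_deriv ?_
      rw [show a + 1 - 1 = (a - 1) + 1 by ring, cpow_add _ _ ht', cpow_one]
      ring
  have hd2 : DifferentiableOn ℂ (fun z : ℂ => z ^ (-a) * Gamma a) U := fun z hz =>
    ((differentiableAt_id.cpow_const (Or.inl hz)).mul_const _).differentiableWithinAt
  have h3 : Tendsto ((↑) : ℝ → ℂ) (𝓝[≠] 1) (𝓝[≠] 1) := by
    rw [tendsto_nhdsWithin_iff]; constructor
    · exact tendsto_nhdsWithin_of_tendsto_nhds continuous_ofReal.continuousAt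
    · exact eventually_nhdsWithin_iff.mpr (Eventually.of_forall fun t ht => ofReal_ne_one.mpr ht)
  refine (hd1.analyticOnNhd hUo).eqOn_of_preconnected_of_frequently_eq (hd2.analyticOnNhd hUo)
    (convex_halfSpace_re_gt 0).isPreconnected (z₀ := 1) (by simp [U]) (h3.frequently ?_) hz
  refine ((Eventually.filter_mono nhdsWithin_le_nhds) ?_).frequently
  refine (eventually_gt_nhds zero_lt_one).mp (Eventually.of_forall fun t ht => ?_)
  rw [integral_cpow_mul_exp_neg_mul_Ioi ha ht, one_div, inv_cpow _ _ (by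
    rw [arg_ofReal_of_nonneg ht.le]; exact Real.pi_pos.ne), cpow_neg]

theorem gamma_exp {a w : ℂ} (ha : 0 < a.re) (hw : |w.im| < π / 2) :
    ∫ t : ℝ in Ioi 0, (t : ℂ) ^ (a - 1) * exp (-(exp w * t)) = exp (-(a * w)) * Gamma a := by
  have h := abs_lt.mp hw
  have hz : 0 < (exp w).re := by
    rw [exp_re]; exact mul_pos (Real.exp_pos _) (Real.cos_pos_of_mem_Ioo ⟨h.1, h.2⟩)
  rw [gamma_cplx ha hz, cpow_def_of_ne_zero (exp_ne_zero _),
    log_exp (by linarith [Real.pi_pos]) (by linarith [Real.pi_pos])]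
  congr 2; ring

theorem norm_Gamma_half_sq (y : ℝ) :
    ‖Gamma (1 / 2 + I * y)‖ ^ 2 = π / Real.cosh (π * y) := by
  have h := Gamma_mul_Gamma_one_sub (1 / 2 + I * y)
  have e : (1 : ℂ) - (1 / 2 + I * y) = (starRingEnd ℂ) (1 / 2 + I * y) := by
    simp only [map_add, map_mul, conj_I, conj_ofReal, map_div₀, map_one, map_ofNat]; ring
  rw [e, Gamma_conj, mul_conj, normSq_eq_norm_sq,
    show (π : ℂ) * (1 / 2 + I * y) = (π * y : ℝ) * I + π / 2 by push_cast; ring,
    Complex.sin_add_pi_div_two, cos_mul_I, ← ofReal_cosh] at h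
  exact_mod_cast h

theorem Gamma_three_quarters : 1 ≤ Real.Gamma (3 / 4) := by
  have h := Real.convexOn_Gamma.2 (show (3 / 4 : ℝ) ∈ Ioi 0 by norm_num)
    (show (3 / 2 : ℝ) ∈ Ioi 0 by norm_num) (show (0 : ℝ) ≤ 2 / 3 by norm_num)
    (show (0 : ℝ) ≤ 1 / 3 by norm_num) (by norm_num)
  simp only [smul_eq_mul] at h
  rw [show (2 / 3 * (3 / 4) + 1 / 3 * (3 / 2) : ℝ) = 1 by norm_num, Real.Gamma_one] at h
  linarith [Real.Gamma_three_div_two_lt_one]

section Phase
variable {y : ℝ}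

noncomputable def dd (y : ℝ) (j : ℕ) : ℝ := Real.arctan (4 * y / (16 * y ^ 2 + j * (j + 1)))

noncomputable def al (y : ℝ) (j : ℕ) : ℝ := Real.arctan (j / (4 * y))

theorem al_succ (hy : 0 < y) (j : ℕ) : al y (j + 1) = al y j + dd y j := by
  have h := Real.arctan_add (x := ((j + 1 : ℕ) : ℝ) / (4 * y)) (y := -(j / (4 * y))) (by
    have : 0 ≤ ((j + 1 : ℕ) : ℝ) / (4 * y) * (j / (4 * y)) := by positivity
    linarith)
  rw [Real.arctan_neg] at h
  rw [al, al, dd, ← sub_eq_iff_eq_add', sub_eq_add_neg, h]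
  congr 1
  push_cast
  have h1 : (0 : ℝ) < 1 - ((j : ℝ) + 1) / (4 * y) * -(j / (4 * y)) := by
    have : 0 ≤ ((j : ℝ) + 1) / (4 * y) * (j / (4 * y)) := by positivity
    linarith
  rw [div_eq_div_iff h1.ne' (by positivity)]
  field_simp
  ring

theorem dd_anti (hy : 0 < y) {i j : ℕ} (h : i ≤ j) : dd y j ≤ dd y i := by
  refine Real.arctan_mono ?_
  have : (i : ℝ) ≤ j := by exact_mod_cast h
  gcongr

theorem dd_le (hy : 0 < y) (j : ℕ) : dd y j ≤ 1 / (4 * y) := by
  have h0 : 0 ≤ dd y 0 := Real.arctan_nonneg.mpr (by positivity)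
  refine (dd_anti hy (Nat.zero_le j)).trans ((Real.le_tan h0 (Real.arctan_lt_pi_div_two _)).trans ?_)
  rw [dd, Real.tan_arctan]
  apply le_of_eq
  push_cast
  field_simp
  ring

noncomputable def ph (y : ℝ) (n : ℕ) : ℝ := ∑ k ∈ Finset.range (n + 1), dd y (4 * k + 1)

theorem ph_upper (hy : 0 < y) (n : ℕ) : 4 * ph y n ≤ al y (4 * n + 2) + 2 * dd y 1 := by
  induction n with
  | zero =>
    have h1 := al_succ hy 0
    have h2 := al_succ hy 1
    have h3 := dd_anti hy (show 0 ≤ 1 by norm_num)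
    have h4 : al y 0 = 0 := by simp [al]
    simp only [ph, zero_add, Finset.range_one, Finset.sum_singleton, mul_zero] at *
    linarith
  | succ n ih =>
    rw [ph, Finset.sum_range_succ, ← ph]
    have h1 := al_succ hy (4 * n + 2)
    have h2 := al_succ hy (4 * n + 3)
    have h3 := al_succ hy (4 * n + 4)
    have h4 := al_succ hy (4 * n + 5)
    have g1 := dd_anti hy (show 4 * n + 2 ≤ 4 * n + 5 by omega)
    have g2 := dd_anti hy (show 4 * n + 3 ≤ 4 * n + 5 by omega)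
    have g3 := dd_anti hy (show 4 * n + 4 ≤ 4 * n + 5 by omega)
    rw [show 4 * (n + 1) + 1 = 4 * n + 5 by ring, show 4 * (n + 1) + 2 = 4 * n + 5 + 1 by ring]
    linarith

theorem ph_lower (hy : 0 < y) (n : ℕ) : al y (4 * n + 5) - dd y 0 ≤ 4 * ph y n := by
  induction n with
  | zero =>
    have h0 := al_succ hy 0
    have h1 := al_succ hy 1
    have h2 := al_succ hy 2
    have h3 := al_succ hy 3
    have h4 := al_succ hy 4
    have g1 := dd_anti hy (show 1 ≤ 2 by norm_num)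
    have g2 := dd_anti hy (show 1 ≤ 3 by norm_num)
    have g3 := dd_anti hy (show 1 ≤ 4 by norm_num)
    have h5 : al y 0 = 0 := by simp [al]
    simp only [ph, zero_add, Finset.range_one, Finset.sum_singleton, mul_zero] at *
    linarith
  | succ n ih =>
    rw [ph, Finset.sum_range_succ, ← ph]
    have h1 := al_succ hy (4 * n + 5)
    have h2 := al_succ hy (4 * n + 6)
    have h3 := al_succ hy (4 * n + 7)
    have h4 := al_succ hy (4 * n + 8)
    have g1 := dd_anti hy (show 4 * n + 5 ≤ 4 * n + 6 by omega)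
    have g2 := dd_anti hy (show 4 * n + 5 ≤ 4 * n + 7 by omega)
    have g3 := dd_anti hy (show 4 * n + 5 ≤ 4 * n + 8 by omega)
    rw [show 4 * (n + 1) + 1 = 4 * n + 5 by ring, show 4 * (n + 1) + 5 = 4 * n + 8 + 1 by ring]
    linarith

theorem ph_abs (hy : 0 < y) (n : ℕ) :
    |ph y n - π / 8| ≤ min (π / 8) (1 / (8 * y)) + (π / 2 - al y (4 * n + 5)) / 4 := by
  have u := ph_upper hy n
  have l := ph_lower hy n
  have a1 : al y (4 * n + 2) < π / 2 := Real.arctan_lt_pi_div_two _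
  have a2 : al y (4 * n + 5) < π / 2 := Real.arctan_lt_pi_div_two _
  have a3 : al y 2 < π / 2 := Real.arctan_lt_pi_div_two _
  have a4 : dd y 0 < π / 2 := Real.arctan_lt_pi_div_two _
  have h0 := al_succ hy 0
  have h1 := al_succ hy 1
  have h5 : al y 0 = 0 := by simp [al]
  have g1 := dd_anti hy (show 0 ≤ 1 by norm_num)
  have d0 := dd_le hy 0
  have d1 := dd_le hy 1
  have e : 1 / (4 * y) = 2 * (1 / (8 * y)) := by field_simp; norm_num
  have p : 0 < 1 / (8 * y) := by positivity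
  simp only [zero_add] at h0
  rw [show 1 + 1 = 2 from rfl] at h1
  rw [abs_le]
  rcases min_choice (π / 8) (1 / (8 * y)) with h | h <;> rw [h] <;> constructor <;> linarith

theorem polar_aux {A B : ℝ} (hA : 0 < A) :
    (A : ℂ) + B * I = (A * √(1 + (B / A) ^ 2) : ℝ) * exp (Real.arctan (B / A) * I) := by
  have hs : 0 < √(1 + (B / A) ^ 2) := Real.sqrt_pos.mpr (by positivity)
  rw [exp_mul_I, ← ofReal_cos, ← ofReal_sin, Real.cos_arctan, Real.sin_arctan]
  have hs' : ((√(1 + (B / A) ^ 2) : ℝ) : ℂ) ≠ 0 := ofReal_ne_zero.mpr hs.ne'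
  have hA' : (A : ℂ) ≠ 0 := ofReal_ne_zero.mpr hA.ne'
  generalize √(1 + (B / A) ^ 2) = r at *
  push_cast
  field_simp

theorem factor_polar (hy : 0 < y) (k : ℕ) : ∃ ρ : ℝ, 0 < ρ ∧
    (1 / 4 + I * y + k) / (1 / 2 + I * y + k) = ρ * exp (dd y (4 * k + 1) * I) := by
  have hA : 0 < (16 * y ^ 2 + ((4 * k + 1 : ℕ) : ℝ) * ((4 * k + 1 : ℕ) + 1)) := by positivity
  have h := polar_aux (B := 4 * y) hA
  have hN : (0 : ℝ) < 16 * ((k + 1 / 2) ^ 2 + y ^ 2) := by positivity
  refine ⟨_ / (16 * ((k + 1 / 2) ^ 2 + y ^ 2)), div_pos (mul_pos hA (Real.sqrt_pos.mpr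
    (show 0 < 1 + (4 * y / (16 * y ^ 2 + ((4 * k + 1 : ℕ) : ℝ) * ((4 * k + 1 : ℕ) + 1))) ^ 2 by
      positivity))) hN, ?_⟩
  rw [ofReal_div, div_mul_eq_mul_div, dd, ← h]
  have h1 : (1 / 2 + I * y + k : ℂ) ≠ 0 := by
    intro h
    have := congrArg im h
    simp at this
    exact hy.ne' this
  rw [div_eq_div_iff h1 (ofReal_ne_zero.mpr hN.ne')]
  push_cast
  linear_combination (-(16 * (y : ℂ) ^ 2 * (1 / 4 + k) + 4 * I * y ^ 2 * 0 + 4 * y ^ 2)
    + 16 * (y : ℂ) ^ 2 * (1 / 4 + k)) * I_mul_I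

theorem ratio_polar (hy : 0 < y) {n : ℕ} (hn : 1 ≤ n) : ∃ ρ : ℝ, 0 < ρ ∧
    GammaSeq (1 / 2 + I * y) n / GammaSeq (1 / 4 + I * y) n = ρ * exp (ph y n * I) := by
  choose ρ hρ hf using factor_polar hy
  have hn0 : (0 : ℝ) < n := by exact_mod_cast hn
  refine ⟨(n : ℝ) ^ (1 / 4 : ℝ) * ∏ k ∈ Finset.range (n + 1), ρ k,
    mul_pos (by positivity) (Finset.prod_pos fun k _ => hρ k), ?_⟩
  have hne : ∀ (a : ℝ) (k : ℕ), (a + I * y + k : ℂ) ≠ 0 := by
    intro a k h
    have := congrArg im h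
    simp at this
    exact hy.ne' this
  have hp1 : ∏ k ∈ Finset.range (n + 1), (1 / 2 + I * y + k : ℂ) ≠ 0 :=
    Finset.prod_ne_zero_iff.mpr fun k _ => by simpa using hne (1 / 2) k
  have hp2 : ∏ k ∈ Finset.range (n + 1), (1 / 4 + I * y + k : ℂ) ≠ 0 :=
    Finset.prod_ne_zero_iff.mpr fun k _ => by simpa using hne (1 / 4) k
  have hnc : (n : ℂ) ≠ 0 := by exact_mod_cast hn0.ne'
  have hfac : ((n.factorial : ℕ) : ℂ) ≠ 0 := by exact_mod_cast n.factorial_ne_zero
  have hpow : (n : ℂ) ^ (1 / 4 + I * y) ≠ 0 := by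
    rw [Ne, cpow_eq_zero_iff]; exact fun h => hnc h.1
  have e1 : (n : ℂ) ^ (1 / 2 + I * y) = (((n : ℝ) ^ (1 / 4 : ℝ) : ℝ) : ℂ) * (n : ℂ) ^ (1 / 4 + I * y) := by
    rw [ofReal_cpow hn0.le, ofReal_natCast, ← cpow_add _ _ hnc]
    congr 1; push_cast; ring
  have e2 : ∏ k ∈ Finset.range (n + 1), ((1 / 4 + I * y + k) / (1 / 2 + I * y + k) : ℂ) =
      (∏ k ∈ Finset.range (n + 1), ρ k : ℝ) * exp (ph y n * I) := by
    simp only [hf, Finset.prod_mul_distrib, ph, ofReal_prod, ofReal_sum, Finset.sum_mul, exp_sum]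
  rw [ofReal_mul, mul_assoc, ← e2, Finset.prod_div_distrib, GammaSeq, GammaSeq, e1]
  generalize (n : ℂ) ^ (1 / 4 + I * y) = u at *
  generalize ∏ k ∈ Finset.range (n + 1), (1 / 2 + I * y + k : ℂ) = P1 at *
  generalize ∏ k ∈ Finset.range (n + 1), (1 / 4 + I * y + k : ℂ) = P2 at *
  field_simp

theorem Gamma_quarter_ne_zero (y : ℝ) : Gamma (1 / 4 + I * y) ≠ 0 :=
  Gamma_ne_zero_of_re_pos (by simp)

theorem phase_bound (hy : 0 < y) :
    ‖Gamma (1 / 2 + I * y) / Gamma (1 / 4 + I * y)‖ * (1 - min (π / 8) (1 / (8 * y)) ^ 2 / 2) ≤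
      (exp (-(π / 8 : ℝ) * I) * (Gamma (1 / 2 + I * y) / Gamma (1 / 4 + I * y))).re := by
  have hR := (GammaSeq_tendsto_Gamma (1 / 2 + I * y)).div (GammaSeq_tendsto_Gamma (1 / 4 + I * y))
    (Gamma_quarter_ne_zero y)
  have hal : Tendsto (fun n : ℕ => al y (4 * n + 5)) atTop (𝓝 (π / 2)) := by
    refine (tendsto_nhds_of_tendsto_nhdsWithin Real.tendsto_arctan_atTop).comp ?_
    refine Tendsto.atTop_div_const (by positivity) (tendsto_natCast_atTop_atTop.comp ?_)
    exact tendsto_atTop_mono (fun n => by simp only [id]; omega) tendsto_id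
  set b := min (π / 8) (1 / (8 * y)) with hb
  have hl : Tendsto (fun n : ℕ => ‖GammaSeq (1 / 2 + I * y) n / GammaSeq (1 / 4 + I * y) n‖ *
      (1 - (b + (π / 2 - al y (4 * n + 5)) / 4) ^ 2 / 2)) atTop
      (𝓝 (‖Gamma (1 / 2 + I * y) / Gamma (1 / 4 + I * y)‖ *
        (1 - (b + (π / 2 - π / 2) / 4) ^ 2 / 2))) :=
    hR.norm.mul ((((((hal.const_sub _).div_const _).const_add _).pow 2).div_const _).const_sub _)
  rw [sub_self, zero_div, add_zero] at hl
  refine le_of_tendsto_of_tendsto hl ((continuous_re.tendsto _).comp (hR.const_mul _)) ?_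
  filter_upwards [eventually_ge_atTop 1] with n hn
  obtain ⟨ρ, hρ, h⟩ := ratio_polar hy hn
  simp only [Function.comp, Pi.div_apply]
  rw [h, norm_mul, norm_exp_ofReal_mul_I, mul_one, norm_real, Real.norm_of_nonneg hρ.le,
    mul_left_comm, ← exp_add, show -((π / 8 : ℝ) : ℂ) * I + ph y n * I =
      (ph y n - π / 8 : ℝ) * I by push_cast; ring, re_ofReal_mul, exp_ofReal_mul_I_re]
  refine mul_le_mul_of_nonneg_left (le_trans ?_ Real.one_sub_sq_div_two_le_cos) hρ.le
  have := ph_abs hy n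
  have h2 := pow_le_pow_left₀ (abs_nonneg _) this 2
  rw [sq_abs] at h2
  linarith

end Phase

end Pool.Agent.MP_6f2ed2_nt.H35
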