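import Mathlib

namespace Pool.Agent.MP_6f2ed2_nt.H35

open Complex Filter Topology Set MeasureTheory

/-- The trapezoid error term. -/
noncomputable def ta (p : ℝ) (s : ℂ) : ℂ :=
  ((p : ℂ) ^ (-s) + ((p + 1 : ℝ) : ℂ) ^ (-s)) / 2 - ∫ v in p..(p + 1), (v : ℂ) ^ (-s)

theorem contOn_cpow (z : ℂ) {a b : ℝ} (ha : 0 < a) (hab : a ≤ b) :
    ContinuousOn (fun v : ℝ => (v : ℂ) ^ z) (uIcc a b) := by
  intro v hv
  rw [uIcc_of_le hab] at hv
  exact (continuousAt_ofReal_cpow_const v z (Or.inr (ha.trans_le hv.1).ne')).continuousWithinAt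

theorem ta_eq {p : ℝ} (hp : 0 < p) {s : ℂ} (hs : s ≠ 0) :
    ta p s = -s * ∫ v in p..(p + 1), ((v : ℂ) - p - 1 / 2) * (v : ℂ) ^ (-s - 1) := by
  have hle : p ≤ p + 1 := by linarith
  have h1 : IntervalIntegrable (fun v : ℝ => (v : ℂ) ^ (-s)) volume p (p + 1) :=
    (contOn_cpow _ hp hle).intervalIntegrable
  have h2 : IntervalIntegrable (fun v : ℝ => ((v : ℂ) - p - 1 / 2) * (v : ℂ) ^ (-s - 1))
      volume p (p + 1) :=
    (ContinuousOn.mul (by fun_prop) (contOn_cpow _ hp hle)).intervalIntegrable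
  have h := intervalIntegral.integral_eq_sub_of_hasDerivAt
    (f := fun v : ℝ => ((v : ℂ) - p - 1 / 2) * (v : ℂ) ^ (-s))
    (f' := fun v : ℝ => (v : ℂ) ^ (-s) + -s * (((v : ℂ) - p - 1 / 2) * (v : ℂ) ^ (-s - 1)))
    (a := p) (b := p + 1) ?_ (h1.add (h2.const_mul _))
  · rw [intervalIntegral.integral_add h1 (h2.const_mul _), intervalIntegral.integral_const_mul] at h
    rw [ta]
    push_cast at h ⊢
    linear_combination -h
  · intro v hv
    rw [uIcc_of_le hle] at hv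
    have hv0 : v ≠ 0 := (hp.trans_le hv.1).ne'
    have d1 : HasDerivAt (fun v : ℝ => (v : ℂ) - p - 1 / 2) 1 v :=
      ((ofRealCLM.hasDerivAt (x := v)).sub_const _).sub_const _
    have d2 := hasDerivAt_ofReal_cpow_const hv0 (neg_ne_zero.mpr hs)
    exact (d1.mul d2).congr_deriv (by ring)

theorem norm_ta_le {p : ℝ} (hp : 0 < p) {s : ℂ} (hs : s ≠ 0) :
    ‖ta p s‖ ≤ ‖s‖ / 2 * ∫ v in p..(p + 1), v ^ (-s.re - 1) := by
  have hle : p ≤ p + 1 := by linarith
  rw [ta_eq hp hs, norm_mul, norm_neg, div_mul_eq_mul_div, mul_div_assoc]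
  refine mul_le_mul_of_nonneg_left ?_ (norm_nonneg _)
  rw [← intervalIntegral.integral_div]
  refine intervalIntegral.norm_integral_le_of_norm_le hle (Eventually.of_forall fun v hv => ?_) ?_
  · have hv0 : 0 < v := hp.trans hv.1
    rw [norm_mul, norm_cpow_eq_rpow_re_of_pos hv0]
    have : ‖(v : ℂ) - p - 1 / 2‖ ≤ 1 / 2 := by
      have : (v : ℂ) - p - 1 / 2 = ((v - p - 1 / 2 : ℝ) : ℂ) := by push_cast; ring
      rw [this, norm_real, Real.norm_eq_abs, abs_le]
      constructor <;> linarith [hv.1, hv.2]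
    simp only [sub_re, neg_re, one_re]
    have h0 : 0 ≤ v ^ (-s.re - 1) := by positivity
    nlinarith
  · refine (intervalIntegral.intervalIntegrable_rpow (Or.inr ?_)).div_const _
    rw [uIcc_of_le hle]
    exact fun h => absurd h.1 (not_le.mpr hp)

theorem norm_ta_le' {p : ℝ} (hp : 1 ≤ p) {s : ℂ} (hs : 1 / 4 < s.re) :
    ‖ta p s‖ ≤ ‖s‖ / 2 * p ^ (-(5 / 4) : ℝ) := by
  have hs0 : s ≠ 0 := by rintro rfl; norm_num at hs
  have hp0 : 0 < p := by linarith
  refine (norm_ta_le hp0 hs0).trans (mul_le_mul_of_nonneg_left ?_ (by positivity))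
  have := intervalIntegral.norm_integral_le_of_norm_le_const (a := p) (b := p + 1)
    (f := fun v : ℝ => v ^ (-s.re - 1)) (C := p ^ (-(5 / 4) : ℝ)) ?_
  · rw [add_sub_cancel_left, abs_one, mul_one] at this
    exact (le_abs_self _).trans this
  · intro v hv
    rw [uIoc_of_le (by linarith)] at hv
    have hv0 : 0 < v := hp0.trans hv.1
    rw [Real.norm_of_nonneg (by positivity)]
    calc v ^ (-s.re - 1) ≤ v ^ (-(5 / 4) : ℝ) :=
          Real.rpow_le_rpow_of_exponent_le (hp.trans hv.1.le) (by linarith)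
      _ ≤ _ := Real.rpow_le_rpow_of_nonpos hp0 hv.1.le (by norm_num)

theorem norm_ta_half {p : ℝ} (hp : 0 < p) {s : ℂ} (hs : s.re = 1 / 2) :
    ‖ta p s‖ ≤ ‖s‖ * (1 / √p - 1 / √(p + 1)) := by
  have hs0 : s ≠ 0 := by rintro rfl; norm_num at hs
  refine (norm_ta_le hp hs0).trans (le_of_eq ?_)
  rw [hs, integral_rpow (Or.inr ⟨by norm_num, ?_⟩)]
  · have e : (-(1 / 2) - 1 + 1 : ℝ) = -(1 / 2) := by norm_num
    rw [e, Real.rpow_neg hp.le, Real.rpow_neg (by linarith), ← Real.sqrt_eq_rpow,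
      ← Real.sqrt_eq_rpow]
    ring
  · rw [uIcc_of_le (by linarith)]
    exact fun h => absurd h.1 (not_le.mpr hp)

theorem norm_ta_triv {p : ℝ} (hp : 0 < p) {s : ℂ} (hs : s.re = 1 / 2) :
    ‖ta p s‖ ≤ 2 / √p := by
  have key : ∀ v : ℝ, p ≤ v → ‖(v : ℂ) ^ (-s)‖ ≤ 1 / √p := by
    intro v hv
    rw [norm_cpow_eq_rpow_re_of_pos (hp.trans_le hv), neg_re, hs,
      Real.rpow_neg (hp.trans_le hv).le, ← Real.sqrt_eq_rpow, one_div]
    exact inv_anti₀ (Real.sqrt_pos.mpr hp) (Real.sqrt_le_sqrt hv)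
  have h1 := intervalIntegral.norm_integral_le_of_norm_le_const (a := p) (b := p + 1)
    (f := fun v : ℝ => (v : ℂ) ^ (-s)) (C := 1 / √p) (fun v hv => by
      rw [uIoc_of_le (by linarith)] at hv
      exact key v hv.1.le)
  rw [add_sub_cancel_left, abs_one, mul_one] at h1
  have h2 := key p le_rfl
  have h3 := key (p + 1) (by linarith)
  rw [ta]
  refine (norm_sub_le _ _).trans ?_
  rw [norm_div, Complex.norm_two]
  have h4 := norm_add_le ((p : ℂ) ^ (-s)) (((p + 1 : ℝ) : ℂ) ^ (-s))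
  have e : 2 / √p = 2 * (1 / √p) := by ring
  linarith

/-- The entire version of the terms. -/
noncomputable def tb (p : ℝ) (s : ℂ) : ℂ :=
  (s - 1) * (((p : ℂ) ^ (-s) + ((p + 1 : ℝ) : ℂ) ^ (-s)) / 2) +
    (((p + 1 : ℝ) : ℂ) ^ (1 - s) - (p : ℂ) ^ (1 - s))

theorem tb_eq {p : ℝ} (hp : 0 < p) (s : ℂ) : tb p s = (s - 1) * ta p s := by
  by_cases hs : s = 1
  · simp [tb, hs]
  · have hs' : -s + 1 ≠ 0 := fun h => hs (by linear_combination -h)
    rw [tb, ta, integral_cpow (Or.inr ⟨fun h => hs (neg_injective h), ?_⟩)]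
    · rw [show 1 - s = -s + 1 by ring]
      field_simp
      ring
    · rw [uIcc_of_le (by linarith)]
      exact fun h => absurd h.1 (not_le.mpr hp)

theorem summable_aux : Summable fun n : ℕ => ((n : ℝ) + 1) ^ (-(5 / 4) : ℝ) := by
  have := (summable_nat_add_iff 1).mpr (Real.summable_nat_rpow.mpr
    (show (-(5 / 4) : ℝ) < -1 by norm_num))
  simpa using this

theorem summable_ta {s : ℂ} (hs : 1 / 4 < s.re) : Summable fun n : ℕ => ta (n + 1) s :=
  (summable_aux.mul_left (‖s‖ / 2)).of_norm_bounded fun n =>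
    norm_ta_le' (by linarith [n.cast_nonneg (α := ℝ)]) hs

theorem zeta_series_of_one_lt {s : ℂ} (hs : 1 < s.re) :
    riemannZeta₁ s = 1 + (s - 1) / 2 + ∑' n : ℕ, tb (n + 1) s := by
  have hs1 : s ≠ 1 := by rintro rfl; simp at hs
  have h1 : HasSum (fun n : ℕ => ((n + 1 : ℝ) : ℂ) ^ (-s)) (riemannZeta s) := by
    rw [zeta_eq_tsum_one_div_nat_add_one_cpow hs]
    have := (summable_nat_add_iff 1).mpr (summable_one_div_nat_cpow.mpr hs)
    simp only [Nat.cast_add, Nat.cast_one] at this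
    have e : (fun n : ℕ => ((n + 1 : ℝ) : ℂ) ^ (-s)) = fun n : ℕ => 1 / ((n : ℂ) + 1) ^ s := by
      funext n
      rw [cpow_neg, one_div]; push_cast; rfl
    rw [e]
    exact this.hasSum
  have h2 : HasSum (fun n : ℕ => ((n + 1 + 1 : ℝ) : ℂ) ^ (-s)) (riemannZeta s - 1) := by
    have := (hasSum_nat_add_iff' 1).mpr h1
    simpa using this
  have hsum : Summable fun n : ℕ => tb (n + 1) s := by
    simp only [fun n : ℕ => tb_eq (p := n + 1) (by positivity) s]
    exact (summable_ta (by linarith)).mul_left _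
  have h3 : HasSum (fun n : ℕ => ((n + 1 + 1 : ℝ) : ℂ) ^ (1 - s) - ((n + 1 : ℝ) : ℂ) ^ (1 - s))
      (-1) := by
    have hs3 : Summable
        (fun n : ℕ => ((n + 1 + 1 : ℝ) : ℂ) ^ (1 - s) - ((n + 1 : ℝ) : ℂ) ^ (1 - s)) := by
      have := hsum.sub (((h1.add h2).div_const 2).mul_left (s - 1)).summable
      refine this.congr fun n => ?_
      simp only [tb]; ring
    refine hs3.hasSum_iff_tendsto_nat.mpr ?_
    have e : ∀ N : ℕ, ∑ n ∈ Finset.range N,
        (((n + 1 + 1 : ℝ) : ℂ) ^ (1 - s) - ((n + 1 : ℝ) : ℂ) ^ (1 - s)) =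
        ((N + 1 : ℝ) : ℂ) ^ (1 - s) - 1 := by
      intro N
      have := Finset.sum_range_sub (fun n : ℕ => ((n + 1 : ℝ) : ℂ) ^ (1 - s)) N
      simpa using this
    simp only [e]
    have h0 : Tendsto (fun N : ℕ => ((N + 1 : ℝ) : ℂ) ^ (1 - s)) atTop (𝓝 0) := by
      rw [tendsto_zero_iff_norm_tendsto_zero]
      have h4 : Tendsto (fun N : ℕ => ((N : ℝ) + 1) ^ (-(s.re - 1))) atTop (𝓝 0) :=
        (tendsto_rpow_neg_atTop (by linarith)).comp
          (tendsto_atTop_add_const_right _ 1 tendsto_natCast_atTop_atTop)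
      refine h4.congr fun N => ?_
      rw [norm_cpow_eq_rpow_re_of_pos (by positivity)]
      simp
    simpa using h0.sub_const 1
  have h4 := ((((h1.add h2).div_const 2).mul_left (s - 1)).add h3).tsum_eq
  have h5 : ∑' n : ℕ, tb (n + 1) s = _ := h4
  rw [h5, riemannZeta_eq_inv_sub_mul hs1]
  have : s - 1 ≠ 0 := sub_ne_zero.mpr hs1
  field_simp
  ring

theorem zeta_series {s : ℂ} (hs : 1 / 4 < s.re) (hs1 : s ≠ 1) :
    HasSum (fun n : ℕ => ta (n + 1) s) (riemannZeta s - (s - 1)⁻¹ - 1 / 2) := by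
  set R := ‖s‖ + 3 with hR
  let U : Set ℂ := {z | 1 / 4 < z.re} ∩ Metric.ball 0 R
  have hUo : IsOpen U := (isOpen_lt continuous_const continuous_re).inter Metric.isOpen_ball
  have hUc : IsPreconnected U :=
    ((convex_halfSpace_re_gt _).inter (convex_ball _ _)).isPreconnected
  have hd : DifferentiableOn ℂ (fun z => 1 + (z - 1) / 2 + ∑' n : ℕ, tb (n + 1) z) U := by
    refine DifferentiableOn.add (by fun_prop) ?_
    refine differentiableOn_tsum_of_summable_norm (summable_aux.mul_left ((R + 1) * (R / 2)))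
      (fun n => ?_) hUo ?_
    · refine Differentiable.differentiableOn ?_
      have h1 : ((n + 1 : ℝ) : ℂ) ≠ 0 := ofReal_ne_zero.mpr (by positivity)
      have h2 : ((n + 1 + 1 : ℝ) : ℂ) ≠ 0 := ofReal_ne_zero.mpr (by positivity)
      unfold tb
      refine Differentiable.add (Differentiable.mul (by fun_prop) (Differentiable.div_const
        (Differentiable.add ?_ ?_) _)) (Differentiable.sub ?_ ?_) <;>
      exact Differentiable.const_cpow (by fun_prop) (Or.inl ‹_›)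
    · intro n z hz
      have hz2 : ‖z‖ < R := by simpa using hz.2
      rw [tb_eq (by positivity), norm_mul, mul_assoc]
      have h1 : ‖z - 1‖ ≤ R + 1 := (norm_sub_le _ _).trans (by rw [norm_one]; linarith)
      refine mul_le_mul h1 ((norm_ta_le' (by linarith [n.cast_nonneg (α := ℝ)]) hz.1).trans ?_)
        (norm_nonneg _) (by positivity)
      gcongr
  have h2 : (2 : ℂ) ∈ U := ⟨by norm_num, by
    rw [mem_ball_zero_iff, Complex.norm_two]; linarith [norm_nonneg s]⟩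
  have heq := (differentiable_riemannZeta₁.differentiableOn.analyticOnNhd hUo
    ).eqOn_of_preconnected_of_eventuallyEq (hd.analyticOnNhd hUo) hUc h2 (by
      have : ∀ᶠ z : ℂ in 𝓝 2, 1 < z.re :=
        (isOpen_lt continuous_const continuous_re).mem_nhds (by norm_num)
      exact this.mono fun z hz => zeta_series_of_one_lt hz)
  have h3 := heq (x := s) ⟨hs, by rw [mem_ball_zero_iff]; linarith⟩
  simp only [fun n : ℕ => tb_eq (p := n + 1) (by positivity) s] at h3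
  rw [tsum_mul_left] at h3
  have : s - 1 ≠ 0 := sub_ne_zero.mpr hs1
  convert (summable_ta hs).hasSum using 1
  rw [riemannZeta_eq_inv_sub_mul hs1, h3]
  field_simp
  ring

theorem sum_inv_sqrt_le (N : ℕ) : ∑ n ∈ Finset.range N, 1 / √((n : ℝ) + 1) ≤ 2 * √N := by
  induction N with
  | zero => simp
  | succ N ih =>
    rw [Finset.sum_range_succ]
    push_cast
    have h1 : 0 < √((N : ℝ) + 1) := Real.sqrt_pos.mpr (by positivity)
    have h2 : √((N : ℝ) + 1) ^ 2 = N + 1 := Real.sq_sqrt (by positivity)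
    have h3 : √(N : ℝ) ^ 2 = N := Real.sq_sqrt (by positivity)
    have : 1 / √((N : ℝ) + 1) ≤ 2 * √((N : ℝ) + 1) - 2 * √(N : ℝ) := by
      rw [div_le_iff₀ h1]
      nlinarith [sq_nonneg (√((N : ℝ) + 1) - √(N : ℝ))]
    linarith

theorem hasSum_tele (N : ℕ) :
    HasSum (fun n : ℕ => 1 / √(((n + N : ℕ) : ℝ) + 1) - 1 / √(((n + N : ℕ) : ℝ) + 1 + 1))
      (1 / √((N : ℝ) + 1)) := by
  refine (hasSum_iff_tendsto_nat_of_nonneg (fun n => ?_) _).mpr ?_
  · rw [sub_nonneg]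
    exact one_div_le_one_div_of_le (Real.sqrt_pos.mpr (by positivity))
      (Real.sqrt_le_sqrt (by linarith))
  · have e : ∀ M : ℕ, ∑ n ∈ Finset.range M,
        (1 / √(((n + N : ℕ) : ℝ) + 1) - 1 / √(((n + N : ℕ) : ℝ) + 1 + 1)) =
        1 / √((N : ℝ) + 1) - 1 / √(((M + N : ℕ) : ℝ) + 1) := by
      intro M
      have := Finset.sum_range_sub' (fun n : ℕ => 1 / √(((n + N : ℕ) : ℝ) + 1)) M
      simp only [zero_add] at this
      rw [← this]
      refine Finset.sum_congr rfl fun n _ => ?_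
      congr 3
      push_cast; ring
    simp only [e]
    have h0 : Tendsto (fun M : ℕ => 1 / √(((M + N : ℕ) : ℝ) + 1)) atTop (𝓝 0) := by
      refine tendsto_const_nhds.div_atTop (Real.tendsto_sqrt_atTop.comp ?_)
      exact tendsto_atTop_add_const_right _ 1
        (tendsto_natCast_atTop_atTop.comp (tendsto_add_atTop_nat N))
    simpa using h0.const_sub (1 / √((N : ℝ) + 1))

theorem norm_zeta_le_aux {s : ℂ} (hs : s.re = 1 / 2) (N : ℕ) :
    ‖riemannZeta s‖ ≤ 3 / 2 + 4 * √N + ‖s‖ * (1 / √((N : ℝ) + 1)) := by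
  have hs1 : s ≠ 1 := by rintro rfl; norm_num at hs
  have h := zeta_series (by rw [hs]; norm_num) hs1
  have h1 : ‖(s - 1)⁻¹ + 1 / 2‖ ≤ 3 / 2 := by
    have hne : s - 1 ≠ 0 := sub_ne_zero.mpr hs1
    have e : (s - 1)⁻¹ + 1 / 2 = (s + 1) / (2 * (s - 1)) := by field_simp; ring
    rw [e, norm_div, div_le_iff₀ (norm_pos_iff.mpr (mul_ne_zero two_ne_zero hne)), norm_mul,
      Complex.norm_two]
    have h2 : ‖s + 1‖ ≤ 3 * ‖s - 1‖ := by
      refine abs_le_of_sq_le_sq' ?_ (by positivity) |>.2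
      rw [mul_pow, Complex.sq_norm, Complex.sq_norm, normSq_apply, normSq_apply]
      simp only [add_re, sub_re, one_re, add_im, sub_im, one_im, hs]
      nlinarith [sq_nonneg s.im]
    linarith
  have h2 : ‖riemannZeta s - (s - 1)⁻¹ - 1 / 2‖ ≤ 4 * √N + ‖s‖ * (1 / √((N : ℝ) + 1)) := by
    rw [← h.tsum_eq, ← h.summable.sum_add_tsum_nat_add N]
    refine (norm_add_le _ _).trans (add_le_add ?_ ?_)
    · refine (norm_sum_le _ _).trans ?_
      calc _ ≤ ∑ n ∈ Finset.range N, 2 * (1 / √((n : ℝ) + 1)) := by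
            refine Finset.sum_le_sum fun n _ => (norm_ta_triv (by positivity) hs).trans ?_
            rw [mul_one_div]
        _ ≤ _ := by rw [← Finset.mul_sum]; linarith [sum_inv_sqrt_le N]
    · exact tsum_of_norm_bounded ((hasSum_tele N).mul_left ‖s‖) fun n =>
        norm_ta_half (by positivity) hs
  have e : riemannZeta s = ((s - 1)⁻¹ + 1 / 2) + (riemannZeta s - (s - 1)⁻¹ - 1 / 2) := by ring
  rw [e]
  refine (norm_add_le _ _).trans ?_
  linarith

theorem norm_zeta_le_lin {s : ℂ} (hs : s.re = 1 / 2) : ‖riemannZeta s‖ ≤ 3 / 2 + ‖s‖ := by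
  simpa using norm_zeta_le_aux hs 0

theorem norm_zeta_le_sqrt {s : ℂ} (hs : s.re = 1 / 2) :
    ‖riemannZeta s‖ ≤ 3 / 2 + 4 * √‖s‖ := by
  have h := norm_zeta_le_aux hs ⌊‖s‖ / 4⌋₊
  set N := ⌊‖s‖ / 4⌋₊
  have h1 : (N : ℝ) ≤ ‖s‖ / 4 := Nat.floor_le (by positivity)
  have h2 : ‖s‖ / 4 < N + 1 := Nat.lt_floor_add_one _
  have h3 : √‖s‖ ^ 2 = ‖s‖ := Real.sq_sqrt (norm_nonneg _)
  have h4 : √(N : ℝ) ≤ √‖s‖ / 2 := by
    rw [Real.sqrt_le_left (by positivity)]; nlinarith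
  have h5 : √‖s‖ / 2 ≤ √((N : ℝ) + 1) := by
    refine Real.le_sqrt_of_sq_le ?_; nlinarith
  have h6 : ‖s‖ * (1 / √((N : ℝ) + 1)) ≤ 2 * √‖s‖ := by
    rw [mul_one_div, div_le_iff₀ (Real.sqrt_pos.mpr (by positivity))]
    nlinarith [Real.sqrt_nonneg ‖s‖]
  linarith

end Pool.Agent.MP_6f2ed2_nt.H35
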