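import Mathlib
import Pool.Agent.MP_6f2ed2_nt.H35.Zeta
import Pool.Agent.MP_6f2ed2_nt.H35.Gamma

namespace Pool.Agent.MP_6f2ed2_nt.H35

open Complex Filter Topology Set MeasureTheory
open scoped Real

noncomputable def ww (δ : ℝ) : ℂ := Real.log π + (π / 2 - 2 * δ : ℝ) * I

noncomputable def kap (δ t : ℝ) : ℂ :=
  Gamma (1 / 2 + I * (t / 2 : ℝ)) * exp (-(I * (t / 2 : ℝ) * ww δ))

noncomputable def mm (t : ℝ) : ℝ :=
  Real.exp (π * t / 4) * ‖Gamma (1 / 2 + I * (t / 2 : ℝ))‖ / √(2 * π)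

noncomputable def hh (δ v : ℝ) : ℂ := (√v : ℝ) * exp (-(exp (ww δ) * (v ^ 2 : ℝ)))

noncomputable def CC (δ : ℝ) : ℂ := 4 * π * exp (ww δ / 2)

noncomputable def sl (t : ℝ) : ℂ := 1 / 2 + I * t

theorem sl_re (t : ℝ) : (sl t).re = 1 / 2 := by simp [sl]

theorem norm_sl_le (t : ℝ) : ‖sl t‖ ≤ 1 / 2 + |t| := by
  refine (norm_add_le _ _).trans ?_
  simp

theorem mm_nonneg (t : ℝ) : 0 ≤ mm t := by unfold mm; positivity

theorem mm_sq (t : ℝ) : mm t ^ 2 = 1 / (1 + Real.exp (-(π * t))) := by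
  rw [mm, div_pow, mul_pow, norm_Gamma_half_sq, Real.sq_sqrt (by positivity), Real.cosh_eq]
  have e1 : Real.exp (π * t / 4) ^ 2 = Real.exp (π * (t / 2)) := by
    rw [← Real.exp_nat_mul]; congr 1; push_cast; ring
  have e2 : Real.exp (-(π * (t / 2))) = Real.exp (π * (t / 2)) * Real.exp (-(π * t)) := by
    rw [← Real.exp_add]; congr 1; ring
  rw [e1, e2]
  have := Real.pi_pos
  field_simp

theorem mm_le_one (t : ℝ) : mm t ≤ 1 := by
  refine abs_le_of_sq_le_sq' ?_ zero_le_one |>.2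
  rw [mm_sq, one_pow, div_le_one (by positivity)]
  linarith [Real.exp_pos (-(π * t))]

theorem mm_le_exp (t : ℝ) : mm t ≤ Real.exp (π * t / 2) := by
  refine abs_le_of_sq_le_sq' ?_ (Real.exp_pos _).le |>.2
  rw [mm_sq, div_le_iff₀ (by positivity), ← Real.exp_nat_mul, mul_add, ← Real.exp_add]
  have : ((2 : ℕ) : ℝ) * (π * t / 2) + -(π * t) = 0 := by push_cast; ring
  rw [this, Real.exp_zero]
  linarith [Real.exp_pos (((2 : ℕ) : ℝ) * (π * t / 2))]

theorem one_sub_le_mm {t : ℝ} (ht : 0 ≤ t) : 1 - Real.exp (-(π * t)) / 2 ≤ mm t := by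
  refine abs_le_of_sq_le_sq' ?_ (mm_nonneg t) |>.2
  have h0 := Real.exp_pos (-(π * t))
  have h1 : Real.exp (-(π * t)) ≤ 1 :=
    Real.exp_le_one_iff.mpr (by nlinarith [Real.pi_pos])
  rw [mm_sq, le_div_iff₀ (by positivity)]
  nlinarith [mul_pos h0 h0]

theorem norm_kap (δ t : ℝ) : ‖kap δ t‖ = √(2 * π) * (mm t * Real.exp (-(δ * t))) := by
  have : 0 < √(2 * π) := Real.sqrt_pos.mpr (by positivity)
  rw [kap, norm_mul, norm_exp, mm]
  have e : (-(I * (t / 2 : ℝ) * ww δ)).re = π * t / 4 + -(δ * t) := by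
    simp only [ww, neg_re, mul_re, mul_im, add_re, add_im, I_re, I_im, ofReal_re, ofReal_im]; ring
  rw [e, Real.exp_add]
  field_simp

theorem mm_exp_le {δ : ℝ} (hδ' : δ ≤ π / 4) (t : ℝ) :
    mm t * Real.exp (-(δ * t)) ≤ Real.exp (-(δ * |t|)) := by
  rcases le_total 0 t with ht | ht
  · rw [abs_of_nonneg ht]
    exact mul_le_of_le_one_left (Real.exp_pos _).le (mm_le_one t)
  · rw [abs_of_nonpos ht]
    refine (mul_le_mul_of_nonneg_right (mm_le_exp t) (Real.exp_pos _).le).trans ?_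
    rw [← Real.exp_add, Real.exp_le_exp]
    nlinarith

theorem integrable_lin_exp {δ : ℝ} (hδ : 0 < δ) (hδ' : δ ≤ 1) :
    Integrable fun t : ℝ => (2 + |t|) * Real.exp (-(δ * |t|)) := by
  refine (integrable_inv_one_add_sq.const_mul (2 * (3 / δ) ^ 3)).mono' (by fun_prop)
    (Eventually.of_forall fun t => ?_)
  have ht := abs_nonneg t
  rw [Real.norm_of_nonneg (by positivity), Real.exp_neg, ← div_eq_mul_inv, ← div_eq_mul_inv,
    div_le_div_iff₀ (Real.exp_pos _) (by positivity), ← sq_abs t]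
  generalize |t| = u at *
  have h1 : (1 + δ * u / 3) ^ 3 ≤ Real.exp (δ * u) := by
    have := Real.add_one_le_exp (δ * u / 3)
    calc _ ≤ Real.exp (δ * u / 3) ^ 3 := pow_le_pow_left₀ (by positivity) (by linarith) 3
      _ = _ := by rw [← Real.exp_nat_mul]; congr 1; push_cast; ring
  have h2 : 1 + u ≤ 3 / δ * (1 + δ * u / 3) := by
    have : 3 / δ * (1 + δ * u / 3) = 3 / δ + u := by field_simp
    rw [this]
    have : 1 ≤ 3 / δ := by rw [le_div_iff₀ hδ]; linarith
    linarith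
  calc (2 + u) * (1 + u ^ 2) ≤ 2 * (1 + u) ^ 3 := by nlinarith [mul_nonneg ht ht]
    _ ≤ 2 * (3 / δ * (1 + δ * u / 3)) ^ 3 := by gcongr
    _ = 2 * (3 / δ) ^ 3 * (1 + δ * u / 3) ^ 3 := by ring
    _ ≤ _ := by gcongr

theorem continuous_Gamma_line {a : ℂ} (ha : 0 < a.re) :
    Continuous fun t : ℝ => Gamma (a + I * (t / 2 : ℝ)) := by
  refine continuous_iff_continuousAt.mpr fun t => ?_
  refine ContinuousAt.comp (f := fun t : ℝ => a + I * (t / 2 : ℝ)) (g := Gamma)
    (differentiableAt_Gamma _ fun m h => ?_).continuousAt (by fun_prop)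
  have := congrArg re h
  simp only [add_re, mul_re, I_re, I_im, ofReal_re, ofReal_im, neg_re, natCast_re] at this
  linarith [m.cast_nonneg (α := ℝ)]

theorem continuous_kap (δ : ℝ) : Continuous (kap δ) :=
  (continuous_Gamma_line (by simp)).mul (by fun_prop)

variable {δ : ℝ}

theorem integrable_kap_mul (hδ : 0 < δ) (hδ' : δ ≤ 1 / 2) {g : ℝ → ℂ}
    (hg : AEStronglyMeasurable g) {C : ℝ} (hC : ∀ t, ‖g t‖ ≤ C * (2 + |t|)) :
    Integrable fun t => kap δ t * g t := by
  refine ((integrable_lin_exp hδ (by linarith)).const_mul (√(2 * π) * C)).mono'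
    ((continuous_kap δ).aestronglyMeasurable.mul hg) (Eventually.of_forall fun t => ?_)
  rw [norm_mul, norm_kap]
  have h1 := mm_exp_le (δ := δ) (by linarith [Real.pi_gt_three]) t
  calc _ ≤ √(2 * π) * Real.exp (-(δ * |t|)) * (C * (2 + |t|)) := by
        gcongr
        exact hC t
    _ = _ := by ring

theorem integrable_kap (hδ : 0 < δ) (hδ' : δ ≤ 1 / 2) : Integrable (kap δ) := by
  have := integrable_kap_mul hδ hδ' (g := fun _ => 1) aestronglyMeasurable_const (C := 1)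
    (fun t => by simp; linarith [abs_nonneg t])
  simpa using this

theorem cpow_pos {v : ℝ} (hv : 0 < v) (z : ℂ) : (v : ℂ) ^ z = exp (Real.log v * z) := by
  rw [cpow_def_of_ne_zero (ofReal_ne_zero.mpr hv.ne'), ofReal_log hv.le]

theorem ww_im (hδ : 0 < δ) (hδ' : δ ≤ 1 / 2) : |(ww δ).im| < π / 2 := by
  have : (ww δ).im = π / 2 - 2 * δ := by simp [ww]
  rw [this, abs_lt]
  constructor <;> linarith [Real.pi_gt_three]

theorem exp_ww_re (hδ : 0 < δ) (hδ' : δ ≤ 1 / 2) : 0 < (exp (ww δ)).re := by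
  have h := abs_lt.mp (ww_im hδ hδ')
  rw [exp_re]; exact mul_pos (Real.exp_pos _) (Real.cos_pos_of_mem_Ioo ⟨h.1, h.2⟩)

theorem stepC (hδ : 0 < δ) (hδ' : δ ≤ 1 / 2) {v : ℝ} (hv : 0 < v) :
    ∫ t, kap δ t * (v : ℂ) ^ (-sl t) = CC δ * hh δ v := by
  let f0 : ℝ → ℂ := fun r => exp (-(exp (ww δ) * r))
  have hm : ∀ y : ℝ, mellin f0 (((1 / 2 : ℝ) : ℂ) + y * I) =
      exp (-(ww δ / 2)) * kap δ (2 * y) := by
    intro y
    rw [mellin]
    simp only [smul_eq_mul, f0]
    rw [gamma_exp (by simp) (ww_im hδ hδ'), kap, mul_left_comm, ← exp_add, mul_comm]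
    congr 2 <;> push_cast <;> ring
  have hinv := mellinInv_mellin_eq (1 / 2) f0 (x := v ^ 2) (by positivity)
    (integrableOn_gamma (by simp) (exp_ww_re hδ hδ')) (by
      unfold VerticalIntegrable
      simp only [hm]
      exact ((integrable_kap hδ hδ').comp_mul_left' two_ne_zero).const_mul _) (by fun_prop)
  rw [mellinInv] at hinv
  have hsq : ((√v : ℝ) : ℂ) = exp (Real.log v / 2) := by
    rw [Real.sqrt_eq_rpow, Real.rpow_def_of_pos hv, ofReal_exp]; congr 1; push_cast; ring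
  have e : ∀ y : ℝ, ((v ^ 2 : ℝ) : ℂ) ^ (-(((1 / 2 : ℝ) : ℂ) + y * I)) •
      mellin f0 (((1 / 2 : ℝ) : ℂ) + y * I) = (exp (-(ww δ / 2)) * exp (-(Real.log v / 2))) *
        (kap δ (2 * y) * (v : ℂ) ^ (-sl (2 * y))) := by
    intro y
    rw [hm, cpow_pos (by positivity), cpow_pos hv, Real.log_pow, smul_eq_mul, sl]
    have : exp (((2 : ℕ) * Real.log v : ℝ) * -(((1 / 2 : ℝ) : ℂ) + y * I)) =
        exp (-(Real.log v / 2)) * exp (Real.log v * -(1 / 2 + I * (2 * y : ℝ))) := by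
      rw [← exp_add]; congr 1; push_cast; ring
    rw [this]; ring
  simp only [e] at hinv
  rw [integral_const_mul, Measure.integral_comp_mul_left
    (fun t => kap δ t * (v : ℂ) ^ (-sl t)) 2] at hinv
  rw [CC, hh, hsq]
  simp only [f0] at hinv
  rw [← hinv, exp_neg, exp_neg, abs_of_pos (by norm_num : (0 : ℝ) < 2⁻¹), real_smul, real_smul]
  have hπ : (π : ℂ) ≠ 0 := ofReal_ne_zero.mpr Real.pi_pos.ne'
  have := exp_ne_zero (ww δ / 2)
  have := exp_ne_zero ((Real.log v : ℂ) / 2)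
  push_cast
  field_simp
  ring

theorem integrable_prod (hδ : 0 < δ) (hδ' : δ ≤ 1 / 2) {a b : ℝ} (ha : 0 ≤ a) (hab : a ≤ b) :
    Integrable (Function.uncurry fun (t v : ℝ) => kap δ t * (v : ℂ) ^ (-sl t))
      (volume.prod (volume.restrict (Ioc a b))) := by
  have h1 : IntegrableOn (fun v : ℝ => v ^ (-(1 / 2) : ℝ)) (Ioc a b) :=
    (intervalIntegrable_iff_integrableOn_Ioc_of_le hab).mp
      (intervalIntegral.intervalIntegrable_rpow' (by norm_num))
  refine ((integrable_kap hδ hδ').norm.mul_prod h1).mono' ?_ ?_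
  · refine Measurable.aestronglyMeasurable ?_
    refine ((continuous_kap δ).measurable.comp measurable_fst).mul ?_
    refine (measurable_ofReal.comp measurable_snd).pow ?_
    unfold sl
    fun_prop
  · filter_upwards [Measure.quasiMeasurePreserving_snd.ae (ae_restrict_mem measurableSet_Ioc)]
      with z hz
    simp only [Function.uncurry]
    rw [norm_mul, norm_cpow_eq_rpow_re_of_pos (ha.trans_lt hz.1), neg_re, sl_re]

theorem stepD (hδ : 0 < δ) (hδ' : δ ≤ 1 / 2) {a b : ℝ} (ha : 0 ≤ a) (hab : a ≤ b) :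
    (Integrable fun t => kap δ t * ∫ v in a..b, (v : ℂ) ^ (-sl t)) ∧
    ∫ t, kap δ t * ∫ v in a..b, (v : ℂ) ^ (-sl t) = CC δ * ∫ v in a..b, hh δ v := by
  simp only [intervalIntegral.integral_of_le hab, ← integral_const_mul]
  refine ⟨(integrable_prod hδ hδ' ha hab).integral_prod_left, ?_⟩
  rw [integral_integral_swap (integrable_prod hδ hδ' ha hab)]
  exact setIntegral_congr_fun measurableSet_Ioc fun v hv => stepC hδ hδ' (ha.trans_lt hv.1)

theorem integrable_kap_cpow (hδ : 0 < δ) (hδ' : δ ≤ 1 / 2) {v : ℝ} (hv : 0 < v) :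
    Integrable fun t => kap δ t * (v : ℂ) ^ (-sl t) := by
  refine integrable_kap_mul hδ hδ' (Continuous.aestronglyMeasurable ?_)
    (C := v ^ (-(1 / 2) : ℝ)) fun t => ?_
  · simp only [cpow_pos hv, sl]; fun_prop
  · rw [norm_cpow_eq_rpow_re_of_pos hv, neg_re, sl_re]
    exact le_mul_of_one_le_right (by positivity) (by linarith [abs_nonneg t])

theorem kap_ta (hδ : 0 < δ) (hδ' : δ ≤ 1 / 2) {p : ℝ} (hp : 0 < p) :
    (Integrable fun t => kap δ t * ta p (sl t)) ∧ ∫ t, kap δ t * ta p (sl t) =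
      CC δ * ((hh δ p + hh δ (p + 1)) / 2 - ∫ v in p..(p + 1), hh δ v) := by
  have e : ∀ t, kap δ t * ta p (sl t) = (kap δ t * (p : ℂ) ^ (-sl t) +
      kap δ t * ((p + 1 : ℝ) : ℂ) ^ (-sl t)) / 2 - kap δ t * ∫ v in p..(p + 1), (v : ℂ) ^ (-sl t) :=
    fun t => by rw [ta]; ring
  have h1 := integrable_kap_cpow hδ hδ' hp
  have h2 := integrable_kap_cpow hδ hδ' (show 0 < p + 1 by linarith)
  have h3 := stepD hδ hδ' hp.le (show p ≤ p + 1 by linarith)
  simp only [e]
  have h4 : Integrable fun t => (kap δ t * (p : ℂ) ^ (-sl t) +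
      kap δ t * ((p + 1 : ℝ) : ℂ) ^ (-sl t)) / 2 := (h1.add h2).div_const 2
  refine ⟨h4.sub h3.1, ?_⟩
  rw [integral_sub h4 h3.1, integral_div, integral_add h1 h2, h3.2,
    stepC hδ hδ' hp, stepC hδ hδ' (show 0 < p + 1 by linarith)]
  ring

theorem norm_hh (δ : ℝ) (v : ℝ) :
    ‖hh δ v‖ = √v * Real.exp (-((exp (ww δ)).re * v ^ 2)) := by
  rw [hh, norm_mul, norm_exp, norm_real, Real.norm_of_nonneg (Real.sqrt_nonneg _), neg_re,
    mul_comm (exp _), re_ofReal_mul, mul_comm (v ^ 2)]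

theorem continuous_hh (δ : ℝ) : Continuous (hh δ) := by unfold hh; fun_prop

theorem integrableOn_hh (hδ : 0 < δ) (hδ' : δ ≤ 1 / 2) : IntegrableOn (hh δ) (Ioi 0) := by
  refine (integrableOn_rpow_mul_exp_neg_mul_rpow (p := 2) (s := 1 / 2) (by norm_num) two_pos
    (exp_ww_re hδ hδ')).mono' (continuous_hh δ).aestronglyMeasurable
    (Eventually.of_forall fun v => ?_)
  rw [norm_hh, Real.sqrt_eq_rpow, Real.rpow_two, neg_mul]

theorem summable_hh (hδ : 0 < δ) (hδ' : δ ≤ 1 / 2) : Summable fun n : ℕ => hh δ (n + 1) := by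
  have hc := exp_ww_re hδ hδ'
  have h := (summable_nat_add_iff 1).mpr (Real.summable_pow_mul_exp_neg_nat_mul 1 hc)
  refine h.of_norm_bounded fun n => ?_
  rw [norm_hh, pow_one]
  push_cast
  have h1 : (1 : ℝ) ≤ n + 1 := by linarith [n.cast_nonneg (α := ℝ)]
  gcongr
  · rw [Real.sqrt_le_left (by linarith)]; nlinarith
  · nlinarith [mul_le_mul_of_nonneg_left (show (n : ℝ) + 1 ≤ (n + 1) ^ 2 by nlinarith) hc.le]

theorem integral_hh (hδ : 0 < δ) (hδ' : δ ≤ 1 / 2) :
    ∫ v in Ioi 0, hh δ v = exp (-(3 / 4 * ww δ)) * Gamma (3 / 4) / 2 := by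
  rw [← gamma_exp (by simp) (ww_im hδ hδ'), ← integral_comp_rpow_Ioi_of_pos
    (g := fun t : ℝ => (t : ℂ) ^ (3 / 4 - 1 : ℂ) * exp (-(exp (ww δ) * t))) two_pos,
    ← integral_div]
  refine setIntegral_congr_fun measurableSet_Ioi fun v hv => ?_
  have hv' : 0 < v := hv
  have hsq : ((√v : ℝ) : ℂ) = (v : ℂ) * ((v ^ 2 : ℝ) : ℂ) ^ (3 / 4 - 1 : ℂ) := by
    rw [Real.sqrt_eq_rpow, Real.rpow_def_of_pos hv', ofReal_exp, cpow_pos (by positivity),
      Real.log_pow]
    conv_rhs => rw [← Real.exp_log hv', ofReal_exp, Real.exp_log hv', ← exp_add]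
    congr 1; push_cast; ring
  simp only [hh, real_smul, Real.rpow_two]
  rw [hsq, show (2 : ℝ) - 1 = 1 by norm_num, Real.rpow_one]
  push_cast
  ring

theorem stepE (hδ : 0 < δ) (hδ' : δ ≤ 1 / 2) :
    ∫ t, kap δ t * riemannZeta (sl t) =
      CC δ * (∑' n : ℕ, hh δ (n + 1) - exp (-(3 / 4 * ww δ)) * Gamma (3 / 4) / 2) := by
  have hs1 : ∀ t, sl t ≠ 1 := fun t h => by have := sl_re t; rw [h] at this; norm_num at this
  have hz := fun t => zeta_series (s := sl t) (by rw [sl_re]; norm_num) (hs1 t)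
  have hta := fun n : ℕ => kap_ta hδ hδ' (p := n + 1) (by positivity)
  have hI := integrable_kap_mul hδ hδ' (g := fun t => ((2 + |t| : ℝ) : ℂ)) (by fun_prop) (C := 1)
    (fun t => by rw [norm_real, Real.norm_of_nonneg (by positivity), one_mul])
  have hsum := hasSum_integral_of_summable_integral_norm (fun n => (hta n).1) (by
    refine (summable_aux.mul_left (∫ t, ‖kap δ t * ((2 + |t| : ℝ) : ℂ)‖)).of_nonneg_of_le
      (fun n => integral_nonneg fun t => norm_nonneg _) fun n => ?_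
    rw [← integral_mul_const]
    refine integral_mono (hta n).1.norm (hI.norm.mul_const _) fun t => ?_
    simp only [norm_mul]
    rw [mul_assoc]
    refine mul_le_mul_of_nonneg_left ?_ (norm_nonneg _)
    refine (norm_ta_le' (by linarith [n.cast_nonneg (α := ℝ)]) (by rw [sl_re]; norm_num)).trans ?_
    rw [norm_real, Real.norm_of_nonneg (by positivity)]
    gcongr
    linarith [norm_sl_le t, abs_nonneg t, norm_nonneg (sl t)])
  simp only [fun n => (hta n).2, tsum_mul_left, fun t => (hz t).tsum_eq] at hsum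
  have hD := stepD hδ hδ' le_rfl zero_le_one
  have e1 : ∀ t, ∫ v in (0 : ℝ)..1, (v : ℂ) ^ (-sl t) = -(sl t - 1)⁻¹ := by
    intro t
    have hne : -sl t + 1 ≠ 0 := fun h => hs1 t (by linear_combination -h)
    rw [integral_cpow (Or.inl (by rw [neg_re, sl_re]; norm_num)), ofReal_zero, zero_cpow hne,
      ofReal_one, one_cpow, ← inv_neg]
    simp only [sub_zero, one_div]; congr 1; ring
  simp only [e1] at hD
  have h1 := integrable_kap_cpow hδ hδ' one_pos
  have h1' := stepC hδ hδ' one_pos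
  simp only [ofReal_one, one_cpow, mul_one] at h1 h1'
  have hζ : Integrable fun t => kap δ t * riemannZeta (sl t) := by
    refine integrable_kap_mul hδ hδ' (Continuous.aestronglyMeasurable ?_) (C := 1) fun t => ?_
    · refine continuous_iff_continuousAt.mpr fun t => ?_
      exact ContinuousAt.comp (f := sl) (differentiableAt_riemannZeta (hs1 t)).continuousAt
        (by unfold sl; fun_prop)
    · linarith [norm_zeta_le_lin (sl_re t), norm_sl_le t]
  have e2 : ∫ t, kap δ t * (riemannZeta (sl t) - (sl t - 1)⁻¹ - 1 / 2) =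
      (∫ t, kap δ t * riemannZeta (sl t)) + CC δ * (∫ v in (0 : ℝ)..1, hh δ v) -
        CC δ * hh δ 1 / 2 := by
    have h7 : Integrable fun t => kap δ t * riemannZeta (sl t) + kap δ t * -(sl t - 1)⁻¹ :=
      hζ.add hD.1
    rw [← hD.2, ← h1', ← integral_add hζ hD.1, ← integral_div, ← integral_sub h7 (h1.div_const 2)]
    congr 1; funext t; ring
  rw [e2] at hsum
  have s1 := (summable_hh hδ hδ').hasSum
  have s2 : HasSum (fun n : ℕ => hh δ (n + 1 + 1)) (∑' n : ℕ, hh δ (n + 1) - hh δ 1) := by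
    have := (hasSum_nat_add_iff' 1).mpr s1
    simpa using this
  have hC : CC δ ≠ 0 := mul_ne_zero (mul_ne_zero (by norm_num)
    (ofReal_ne_zero.mpr Real.pi_pos.ne')) (exp_ne_zero _)
  have s3 : HasSum (fun n : ℕ => ∫ v in ((n : ℝ) + 1)..((n : ℝ) + 1 + 1), hh δ v)
      (∫ v in Ioi 1, hh δ v) := by
    have hs3 : Summable fun n : ℕ => ∫ v in ((n : ℝ) + 1)..((n : ℝ) + 1 + 1), hh δ v := by
      have := ((s1.add s2).div_const 2).summable.sub ((summable_mul_left_iff hC).mp hsum.summable)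
      refine this.congr fun n => ?_
      ring
    refine hs3.hasSum_iff_tendsto_nat.mpr ?_
    have h4 := intervalIntegral_tendsto_integral_Ioi 1
      ((integrableOn_hh hδ hδ').mono_set (Ioi_subset_Ioi zero_le_one))
      (tendsto_atTop_add_const_right _ 1 tendsto_natCast_atTop_atTop)
    refine h4.congr fun N => ?_
    have := intervalIntegral.sum_integral_adjacent_intervals (f := hh δ) (μ := volume)
      (a := fun n : ℕ => (n : ℝ) + 1) (n := N)
      (fun k _ => (continuous_hh δ).intervalIntegrable _ _)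
    simpa using this.symm
  have h5 := hsum.unique ((((s1.add s2).div_const 2).sub s3).mul_left (CC δ))
  have h6 : (∫ v in (0 : ℝ)..1, hh δ v) + ∫ v in Ioi 1, hh δ v = ∫ v in Ioi 0, hh δ v :=
    intervalIntegral.integral_interval_add_Ioi (integrableOn_hh hδ hδ')
      ((integrableOn_hh hδ hδ').mono_set (Ioi_subset_Ioi zero_le_one))
  rw [← integral_hh hδ hδ', ← h6]
  linear_combination h5

end Pool.Agent.MP_6f2ed2_nt.H35
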