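import Mathlib
import Pool.Agent.MP_6f2ed2_nt.H35.Kernel

namespace Pool.Agent.MP_6f2ed2_nt.H35

open Complex Filter Topology Set MeasureTheory
open scoped Real

theorem second_diff {f f' f'' : ℝ → ℂ} {p C : ℝ} (h1 : ∀ u, p ≤ u → HasDerivAt f (f' u) u)
    (h2 : ∀ u, p ≤ u → HasDerivAt f' (f'' u) u) (h3 : ∀ u, p ≤ u → ‖f'' u‖ ≤ C) :
    ‖f (p + 2) - 2 * f (p + 1) + f p‖ ≤ C := by
  have a1 : ∀ u, p ≤ u → ‖f' (u + 1) - f' u‖ ≤ C := by
    intro u hu
    have := norm_image_sub_le_of_norm_deriv_le_segment' (a := u) (b := u + 1) (f := f') (C := C)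
      (fun x hx => (h2 x (hu.trans hx.1)).hasDerivWithinAt) (fun x hx => h3 x (hu.trans hx.1))
      (u + 1) ⟨by linarith, le_rfl⟩
    simpa using this
  have := norm_image_sub_le_of_norm_deriv_le_segment' (a := p) (b := p + 1)
    (f := fun u => f (u + 1) - f u) (f' := fun u => f' (u + 1) - f' u) (C := C)
    (fun x hx => (((h1 (x + 1) (by linarith [hx.1])).comp_add_const x 1).sub
      (h1 x hx.1)).hasDerivWithinAt) (fun x hx => a1 x hx.1) (p + 1) ⟨by linarith, le_rfl⟩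
  rw [add_sub_cancel_left, mul_one, show p + 1 + 1 = p + 2 by ring] at this
  rw [show f (p + 2) - 2 * f (p + 1) + f p = f (p + 2) - f (p + 1) - (f (p + 1) - f p) by ring]
  exact this

noncomputable def ff (c : ℂ) (a u : ℝ) : ℂ := (u ^ a : ℝ) * exp (-(c * (u ^ 2 : ℝ)))

theorem hasDerivAt_ff (c : ℂ) (a : ℝ) {u : ℝ} (hu : 0 < u) :
    HasDerivAt (ff c a) (a * ff c (a - 1) u - 2 * c * ff c (a + 1) u) u := by
  have d1 := (Real.hasDerivAt_rpow_const (p := a) (Or.inl hu.ne')).ofReal_comp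
  have d2 := (((hasDerivAt_pow 2 u).ofReal_comp.const_mul c).neg).cexp
  refine (d1.mul d2).congr_deriv ?_
  simp only [ff, Real.rpow_add_one hu.ne', Pi.neg_apply]
  push_cast
  ring

theorem norm_ff (c : ℂ) (a : ℝ) {u : ℝ} (hu : 0 < u) :
    ‖ff c a u‖ = u ^ a * Real.exp (-(c.re * u ^ 2)) := by
  rw [ff, norm_mul, norm_exp, norm_real, Real.norm_of_nonneg (by positivity), neg_re,
    mul_comm c, re_ofReal_mul, mul_comm (u ^ 2)]

theorem ff_second {c : ℂ} (hc : ‖c‖ ≤ 2 * c.re) {p : ℝ} (hp : 1 ≤ p) :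
    ‖ff c (1 / 2) (p + 2) - 2 * ff c (1 / 2) (p + 1) + ff c (1 / 2) p‖ ≤
      32 * p ^ (-(5 / 4) : ℝ) := by
  refine second_diff (f' := fun u => (1 / 2 : ℝ) * ff c (1 / 2 - 1) u - 2 * c * ff c (1 / 2 + 1) u)
    (f'' := fun u => -(1 / 4) * ff c (-(3 / 2)) u - 4 * c * ff c (-(3 / 2) + 2) u +
      4 * c ^ 2 * ff c (-(3 / 2) + 4) u)
    (fun u hu => hasDerivAt_ff c _ (by linarith)) (fun u hu => ?_) (fun u hu => ?_)
  · refine (((hasDerivAt_ff c (1 / 2 - 1) (u := u) (by linarith)).const_mul _).sub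
      ((hasDerivAt_ff c (1 / 2 + 1) (u := u) (by linarith)).const_mul _)).congr_deriv ?_
    norm_num
    ring
  · have hu0 : 0 < u := by linarith
    have hre : 0 ≤ c.re := by linarith [norm_nonneg c]
    set x := c.re * u ^ 2 with hx
    have hx0 : 0 ≤ x := by positivity
    have hw : 0 < u ^ (-(3 / 2) : ℝ) := by positivity
    have e2 : u ^ (-(3 / 2) + 2 : ℝ) = u ^ (-(3 / 2) : ℝ) * u ^ 2 := by
      rw [Real.rpow_add hu0, Real.rpow_two]
    have e4 : u ^ (-(3 / 2) + 4 : ℝ) = u ^ (-(3 / 2) : ℝ) * u ^ 4 := by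
      rw [Real.rpow_add hu0, show (4 : ℝ) = (4 : ℕ) by norm_num, Real.rpow_natCast]
    have hcx : ‖c‖ * u ^ 2 ≤ 2 * x := by rw [hx]; nlinarith [sq_nonneg u]
    have hE : (1 / 4 + 8 * x + 16 * x ^ 2) * Real.exp (-x) ≤ 32 := by
      rw [Real.exp_neg, ← div_eq_mul_inv, div_le_iff₀ (Real.exp_pos _)]
      nlinarith [Real.quadratic_le_exp_of_nonneg hx0]
    calc _ ≤ ‖-(1 / 4) * ff c (-(3 / 2)) u‖ + ‖4 * c * ff c (-(3 / 2) + 2) u‖ +
          ‖4 * c ^ 2 * ff c (-(3 / 2) + 4) u‖ :=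
          (norm_add_le _ _).trans (add_le_add (norm_sub_le _ _) le_rfl)
      _ = u ^ (-(3 / 2) : ℝ) * ((1 / 4 + 4 * (‖c‖ * u ^ 2) + 4 * (‖c‖ * u ^ 2) ^ 2) *
          Real.exp (-x)) := by
          simp only [norm_mul, norm_ff c _ hu0, e2, e4, norm_pow, norm_neg, norm_div, norm_one,
            Complex.norm_ofNat, ← hx]
          ring
      _ ≤ u ^ (-(3 / 2) : ℝ) * ((1 / 4 + 4 * (2 * x) + 4 * (2 * x) ^ 2) * Real.exp (-x)) := by
          gcongr
      _ ≤ u ^ (-(3 / 2) : ℝ) * 32 := by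
          refine mul_le_mul_of_nonneg_left (le_trans (le_of_eq ?_) hE) hw.le
          ring
      _ ≤ _ := by
          rw [mul_comm]
          refine mul_le_mul_of_nonneg_left ?_ (by norm_num)
          calc u ^ (-(3 / 2) : ℝ) ≤ u ^ (-(5 / 4) : ℝ) :=
                Real.rpow_le_rpow_of_exponent_le (by linarith) (by norm_num)
            _ ≤ _ := Real.rpow_le_rpow_of_nonpos (by linarith) hu (by norm_num)

noncomputable def cc (δ : ℝ) : ℂ := exp (ww δ) - π * I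

theorem cc_eq (δ : ℝ) : cc δ = (π * Real.sin (2 * δ) : ℝ) + (π * (Real.cos (2 * δ) - 1) : ℝ) * I := by
  rw [cc, ww, exp_add, ← ofReal_exp, Real.exp_log Real.pi_pos, exp_mul_I, ← ofReal_cos,
    ← ofReal_sin, Real.cos_pi_div_two_sub, Real.sin_pi_div_two_sub]
  simp only [ofReal_mul, ofReal_sub, ofReal_one]
  ring

theorem norm_cc_le {δ : ℝ} (hδ : 0 < δ) (hδ' : δ ≤ 1 / 2) : ‖cc δ‖ ≤ 2 * (cc δ).re := by
  have h1 : 0 ≤ Real.sin (2 * δ) :=
    Real.sin_nonneg_of_nonneg_of_le_pi (by linarith) (by linarith [Real.pi_gt_three])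
  have h2 : 0 ≤ Real.cos (2 * δ) :=
    Real.cos_nonneg_of_neg_pi_div_two_le_of_le (by linarith [Real.pi_gt_three])
      (by linarith [Real.pi_gt_three])
  have h3 := Real.sin_sq_add_cos_sq (2 * δ)
  have h4 := Real.cos_le_one (2 * δ)
  have h5 := Real.sin_le_one (2 * δ)
  have h6 : 1 ≤ Real.sin (2 * δ) + Real.cos (2 * δ) := by nlinarith
  refine (norm_le_abs_re_add_abs_im _).trans ?_
  have hre : (cc δ).re = π * Real.sin (2 * δ) := by
    rw [cc_eq]; simp only [add_re, ofReal_re, mul_re, I_re, I_im, ofReal_im]; ring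
  have him : (cc δ).im = π * (Real.cos (2 * δ) - 1) := by
    rw [cc_eq]; simp only [add_im, ofReal_re, mul_im, I_re, I_im, ofReal_im]; ring
  have := Real.pi_pos
  rw [hre, him, abs_of_nonneg (by positivity), abs_of_nonpos (by nlinarith)]
  nlinarith

theorem tendsto_cc : Tendsto cc (𝓝[>] 0) (𝓝 0) := by
  have h : Continuous cc := by unfold cc ww; fun_prop
  have h0 : cc 0 = 0 := by simp [cc_eq]
  exact tendsto_nhdsWithin_of_tendsto_nhds (h0 ▸ h.tendsto 0)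

theorem hh_nat (δ : ℝ) (n : ℕ) : hh δ n = (-1) ^ n * ff (cc δ) (1 / 2) n := by
  have e : exp (-(π * I * ((n : ℝ) ^ 2 : ℝ))) = (-1) ^ n := by
    have : -(π * I * ((n : ℝ) ^ 2 : ℝ)) = ((n ^ 2 : ℕ) : ℂ) * -(π * I) := by push_cast; ring
    rw [this, exp_nat_mul, exp_neg, exp_pi_mul_I, inv_neg, inv_one]
    rcases Nat.even_or_odd n with h | h
    · rw [h.neg_one_pow, (h.pow_of_ne_zero two_ne_zero).neg_one_pow]
    · rw [h.neg_one_pow, h.pow.neg_one_pow]
  rw [hh, ff, ← e, Real.sqrt_eq_rpow, mul_left_comm, ← exp_add, cc]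
  congr 2
  ring

noncomputable def DD (c : ℂ) (j : ℕ) : ℂ :=
  ff c (1 / 2) ((2 * j + 1 : ℝ) + 2) - 2 * ff c (1 / 2) ((2 * j + 1 : ℝ) + 1) +
    ff c (1 / 2) (2 * j + 1 : ℝ)

theorem tsum_hh {δ : ℝ} (hδ : 0 < δ) (hδ' : δ ≤ 1 / 2) :
    ∑' n : ℕ, hh δ (n + 1) = -(ff (cc δ) (1 / 2) 1 + ∑' j, DD (cc δ) j) / 2 := by
  have hs := summable_hh hδ hδ'
  have he : ∀ j : ℕ, hh δ ((2 * j : ℕ) + 1) = -ff (cc δ) (1 / 2) (2 * j + 1 : ℝ) := by
    intro j
    have := hh_nat δ (2 * j + 1)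
    rw [(odd_two_mul_add_one j).neg_one_pow] at this
    push_cast at this ⊢
    rw [this]; ring
  have ho : ∀ j : ℕ, hh δ ((2 * j + 1 : ℕ) + 1) = ff (cc δ) (1 / 2) ((2 * j + 1 : ℝ) + 1) := by
    intro j
    have := hh_nat δ (2 * j + 1 + 1)
    rw [(odd_two_mul_add_one j).add_one.neg_one_pow] at this
    push_cast at this ⊢
    rw [this]; ring
  have s1 : Summable fun j : ℕ => hh δ ((2 * j : ℕ) + 1) :=
    hs.comp_injective (mul_right_injective₀ (two_ne_zero' ℕ))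
  have s2 : Summable fun j : ℕ => hh δ ((2 * j + 1 : ℕ) + 1) :=
    hs.comp_injective ((add_left_injective 1).comp (mul_right_injective₀ (two_ne_zero' ℕ)))
  have h1 := (HasSum.even_add_odd (f := fun n : ℕ => hh δ (n + 1)) s1.hasSum s2.hasSum).tsum_eq
  simp only [he, ho] at s1 s2 h1
  have s1' := s1.neg
  simp only [neg_neg] at s1'
  rw [tsum_neg] at h1
  have s3 := (hasSum_nat_add_iff' 1).mpr s1'.hasSum
  have h4 := ((s3.sub (s2.hasSum.mul_left 2)).add s1'.hasSum).tsum_eq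
  have h3 : ∑' j, DD (cc δ) j = _ := Eq.trans (tsum_congr fun j => by
    rw [DD, show (2 * (j : ℝ) + 1 + 2) = 2 * ((j + 1 : ℕ) : ℝ) + 1 by push_cast; ring]) h4
  rw [h1, h3]
  simp only [Finset.range_one, Finset.sum_singleton, Nat.cast_zero, mul_zero, zero_add]
  ring

theorem sqrt_concave {x : ℝ} (hx : 0 ≤ x) : √(x + 2) - √(x + 1) ≤ √(x + 1) - √x := by
  have h0 := Real.sq_sqrt hx
  have h1 := Real.sq_sqrt (show 0 ≤ x + 1 by linarith)
  have h2 := Real.sq_sqrt (show 0 ≤ x + 2 by linarith)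
  have h3 : √(x + 2) + √x ≤ 2 * √(x + 1) := by
    refine abs_le_of_sq_le_sq' ?_ (by positivity) |>.2
    nlinarith [sq_nonneg (√(x + 2) - √x)]
  linarith

theorem stepF : ∃ S : ℝ, S ≤ -(29 / 100) ∧
    Tendsto (fun δ => ∑' n : ℕ, hh δ (n + 1)) (𝓝[>] 0) (𝓝 (S : ℂ)) := by
  let d : ℕ → ℝ := fun j => 2 * √((2 * j + 1 : ℝ) + 1) - √((2 * j + 1 : ℝ) + 2) - √(2 * j + 1 : ℝ)
  have hd0 : ∀ j, 0 ≤ d j := fun j => by
    have := sqrt_concave (x := 2 * j + 1) (by positivity)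
    simp only [d]; linarith
  have hdsum : ∀ N, ∑ j ∈ Finset.range N, d j ≤
      √2 - 1 - (√((2 * N + 1 : ℝ) + 1) - √(2 * N + 1 : ℝ)) := by
    intro N
    induction N with
    | zero => norm_num
    | succ N ih =>
      rw [Finset.sum_range_succ]
      have := sqrt_concave (x := 2 * N + 1 + 1) (by positivity)
      simp only [d]
      push_cast
      rw [show (2 * (N + 1) + 1 : ℝ) = 2 * N + 1 + 2 by ring]
      rw [show (2 * N + 1 + 1 + 1 : ℝ) = 2 * N + 1 + 2 by ring,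
        show (2 * N + 1 + 1 + 2 : ℝ) = 2 * N + 1 + 2 + 1 by ring] at this
      simp only [d] at ih
      linarith
  have hle : ∑' j, d j ≤ √2 - 1 := Real.tsum_le_of_sum_range_le hd0 fun N => by
    have := Real.sqrt_le_sqrt (show (2 * N + 1 : ℝ) ≤ 2 * N + 1 + 1 by linarith)
    linarith [hdsum N]
  have h2 : √2 ≤ 142 / 100 := by rw [Real.sqrt_le_left (by norm_num)]; norm_num
  refine ⟨-(1 - ∑' j, d j) / 2, by linarith, ?_⟩
  have hff : ∀ u : ℝ, Tendsto (fun δ => ff (cc δ) (1 / 2) u) (𝓝[>] 0) (𝓝 (√u : ℝ)) := by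
    intro u
    have h : Continuous fun c => ff c (1 / 2) u := by unfold ff; fun_prop
    have h0 : ff 0 (1 / 2) u = (√u : ℝ) := by rw [ff, Real.sqrt_eq_rpow]; simp
    exact h0 ▸ (h.tendsto 0).comp tendsto_cc
  have hev : ∀ᶠ δ : ℝ in 𝓝[>] 0, 0 < δ ∧ δ ≤ 1 / 2 :=
    Ioc_mem_nhdsGT (by norm_num : (0 : ℝ) < 1 / 2)
  have hD : Tendsto (fun δ => ∑' j, DD (cc δ) j) (𝓝[>] 0) (𝓝 (∑' j, ((-d j : ℝ) : ℂ))) := by
    refine tendsto_tsum_of_dominated_convergence (summable_aux.mul_left 32) (fun j => ?_) ?_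
    · have := ((hff ((2 * j + 1 : ℝ) + 2)).sub ((hff ((2 * j + 1 : ℝ) + 1)).const_mul 2)).add
        (hff (2 * j + 1 : ℝ))
      refine this.trans (le_of_eq ?_)
      congr 1
      simp only [d]; push_cast; ring
    · filter_upwards [hev] with δ hδ j
      have hj : (0 : ℝ) ≤ j := j.cast_nonneg
      refine (ff_second (norm_cc_le hδ.1 hδ.2) (by linarith)).trans ?_
      exact mul_le_mul_of_nonneg_left
        (Real.rpow_le_rpow_of_nonpos (by linarith) (by linarith) (by norm_num)) (by norm_num)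
  have h3 := (((hff 1).add hD).neg).div_const 2
  refine (h3.congr' ?_).trans (le_of_eq ?_)
  · filter_upwards [hev] with δ hδ using (tsum_hh hδ.1 hδ.2).symm
  · rw [← ofReal_tsum, tsum_neg, Real.sqrt_one]
    congr 1
    push_cast; ring

end Pool.Agent.MP_6f2ed2_nt.H35
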