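import Mathlib

namespace Pool.Agent.MP_6f2ed2_nt.H35

open Complex

/-- Hardy's function `Z(t) = e^(i theta(t)) zeta(1/2 + i t)`, with
`e^(i theta(t)) = pi^(-i t/2) Gamma(1/4 + i t/2) / |Gamma(1/4 + i t/2)|`. The complex number is
real; its real part is taken. -/
noncomputable def Z (t : ℝ) : ℝ :=
  ((Real.pi : ℂ) ^ (-(I * t) / 2) * Gamma (1 / 4 + I * t / 2) / (‖Gamma (1 / 4 + I * t / 2)‖ : ℂ) *
    riemannZeta (1 / 2 + I * t)).re

/-- The primitive of Hardy's function. -/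
noncomputable def F (T : ℝ) : ℝ := ∫ t in (0 : ℝ)..T, Z t

/-- The integral of the primitive of Hardy's function. -/
noncomputable def G (T : ℝ) : ℝ := ∫ t in (0 : ℝ)..T, F t

end Pool.Agent.MP_6f2ed2_nt.H35
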