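import Mathlib
import Pool.Agent.MP_6f2ed2_nt.H35.Defs
import Pool.Agent.MP_6f2ed2_nt.H35.Alt

namespace Pool.Agent.MP_6f2ed2_nt.H35

open Complex Filter Topology Set MeasureTheory
open scoped Real

noncomputable def Zc (t : ℝ) : ℂ :=
  exp (Real.log π * -(I * (t / 2 : ℝ))) * Gamma (1 / 4 + I * (t / 2 : ℝ)) /
    (‖Gamma (1 / 4 + I * (t / 2 : ℝ))‖ : ℂ) * riemannZeta (sl t)

theorem Z_eq_re (t : ℝ) : Z t = (Zc t).re := by
  have e : I * t / 2 = I * (t / 2 : ℝ) := by push_cast; ring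
  rw [Z, Zc, cpow_pos Real.pi_pos, neg_div, e, sl]

theorem sl_ne_zero (t : ℝ) : sl t ≠ 0 := fun h => by
  have := sl_re t; rw [h] at this; norm_num at this

theorem sl_ne_one (t : ℝ) : sl t ≠ 1 := fun h => by
  have := sl_re t; rw [h] at this; norm_num at this

theorem conj_quarter (t : ℝ) :
    (starRingEnd ℂ) (1 / 4 + I * (t / 2 : ℝ)) = 1 / 4 + I * (-t / 2 : ℝ) := by
  simp only [map_add, map_mul, conj_I, conj_ofReal, map_div₀, map_one, map_ofNat]
  push_cast; ring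

theorem norm_Gamma_neg (t : ℝ) :
    ‖Gamma (1 / 4 + I * (-t / 2 : ℝ))‖ = ‖Gamma (1 / 4 + I * (t / 2 : ℝ))‖ := by
  rw [← conj_quarter, Gamma_conj, norm_conj]

theorem Zc_eq (t : ℝ) : Zc t = exp (Real.log π / 4) * completedRiemannZeta (sl t) /
    (‖Gamma (1 / 4 + I * (t / 2 : ℝ))‖ : ℂ) := by
  have e : sl t / 2 = 1 / 4 + I * (t / 2 : ℝ) := by rw [sl]; push_cast; ring
  have e2 : exp (Real.log π * -(I * (t / 2 : ℝ))) =
      exp (Real.log π / 4) * exp (Real.log π * (-sl t / 2)) := by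
    rw [← exp_add, neg_div, e]; congr 1; ring
  rw [Zc, riemannZeta_def_of_ne_zero (sl_ne_zero t), Gammaℝ_def, cpow_pos Real.pi_pos, e, e2]
  have h1 := Gamma_quarter_ne_zero (t / 2)
  have h2 := exp_ne_zero (Real.log π * (-sl t / 2))
  generalize Gamma (1 / 4 + I * (t / 2 : ℝ)) = g at *
  generalize exp (Real.log π * (-sl t / 2)) = u at *
  field_simp

theorem Zc_neg (t : ℝ) : Zc (-t) = Zc t := by
  have e : sl (-t) = 1 - sl t := by simp only [sl]; push_cast; ring
  rw [Zc_eq, Zc_eq, e, completedRiemannZeta_one_sub, norm_Gamma_neg]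

theorem conj_Zc (t : ℝ) : (starRingEnd ℂ) (Zc t) = Zc t := by
  have e : (starRingEnd ℂ) (sl t) = sl (-t) := by
    simp only [sl, map_add, map_mul, conj_I, conj_ofReal, map_div₀, map_one, map_ofNat]
    push_cast; ring
  conv_rhs => rw [← Zc_neg]
  rw [Zc, Zc, map_mul, map_div₀, map_mul, ← exp_conj, ← Gamma_conj, ← riemannZeta_conj, e,
    conj_quarter, conj_ofReal, norm_Gamma_neg]
  congr 4
  simp only [map_mul, map_neg, conj_I, conj_ofReal]
  push_cast; ring

theorem Z_coe (t : ℝ) : (Z t : ℂ) = Zc t := by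
  rw [Z_eq_re]; exact conj_eq_iff_re.mp (conj_Zc t)

theorem Z_neg (t : ℝ) : Z (-t) = Z t := by rw [Z_eq_re, Z_eq_re, Zc_neg]

theorem abs_Z (t : ℝ) : |Z t| = ‖riemannZeta (sl t)‖ := by
  have h1 := norm_pos_iff.mpr (Gamma_quarter_ne_zero (t / 2))
  rw [← Real.norm_eq_abs, ← norm_real, Z_coe, Zc, norm_mul, norm_div, norm_mul, norm_exp,
    norm_real, norm_norm, mul_div_assoc, div_self h1.ne']
  simp only [mul_re, neg_re, neg_im, mul_im, ofReal_re, ofReal_im, I_re, I_im]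
  simp

theorem abs_Z_le (t : ℝ) : |Z t| ≤ 2 + |t| := by
  rw [abs_Z]; linarith [norm_zeta_le_lin (sl_re t), norm_sl_le t]

theorem continuous_zeta_sl : Continuous fun t => riemannZeta (sl t) :=
  continuous_iff_continuousAt.mpr fun t => ContinuousAt.comp (f := sl)
    (differentiableAt_riemannZeta (sl_ne_one t)).continuousAt (by unfold sl; fun_prop)

theorem continuous_Z : Continuous Z := by
  have h := continuous_Gamma_line (a := 1 / 4) (by simp)
  have : Continuous Zc := by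
    refine Continuous.mul (Continuous.div (Continuous.mul (by fun_prop) h)
      (continuous_ofReal.comp h.norm) fun t => ?_) continuous_zeta_sl
    exact ofReal_ne_zero.mpr (norm_pos_iff.mpr (Gamma_quarter_ne_zero (t / 2))).ne'
  exact (continuous_re.comp this).congr fun t => (Z_eq_re t).symm

noncomputable def uu (t : ℝ) : ℂ :=
  (Real.exp (π * t / 4) * ‖Gamma (1 / 4 + I * (t / 2 : ℝ))‖ / √(2 * π) : ℝ) *
    (exp (-(π / 8 : ℝ) * I) * (Gamma (1 / 2 + I * (t / 2 : ℝ)) / Gamma (1 / 4 + I * (t / 2 : ℝ))))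

theorem uu_aux (t : ℝ) : Real.exp (π * t / 4) * ‖Gamma (1 / 4 + I * (t / 2 : ℝ))‖ / √(2 * π) *
    ‖Gamma (1 / 2 + I * (t / 2 : ℝ)) / Gamma (1 / 4 + I * (t / 2 : ℝ))‖ = mm t := by
  have h1 := norm_pos_iff.mpr (Gamma_quarter_ne_zero (t / 2))
  rw [mm, norm_div]
  generalize ‖Gamma (1 / 4 + I * (t / 2 : ℝ))‖ = g at *
  field_simp

theorem norm_uu (t : ℝ) : ‖uu t‖ = mm t := by
  rw [uu, norm_mul, norm_mul, ← ofReal_neg, norm_exp_ofReal_mul_I, one_mul, norm_real,
    Real.norm_of_nonneg (by positivity), uu_aux]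

theorem re_uu_ge {t : ℝ} (ht : 0 < t) :
    mm t * (1 - min (π / 8) (1 / (4 * t)) ^ 2 / 2) ≤ (uu t).re := by
  have h := phase_bound (y := t / 2) (by linarith)
  rw [show 8 * (t / 2) = 4 * t by ring] at h
  rw [uu, re_ofReal_mul, ← uu_aux, mul_assoc]
  exact mul_le_mul_of_nonneg_left h (by positivity)

theorem kap_zeta (δ t : ℝ) :
    exp (-(π / 8 : ℝ) * I) / (√(2 * π) : ℝ) * (kap δ t * riemannZeta (sl t)) =
      (Z t * Real.exp (-(δ * t)) : ℝ) * uu t := by
  have e : exp (-(I * (t / 2 : ℝ) * ww δ)) = exp (Real.log π * -(I * (t / 2 : ℝ))) *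
      ((Real.exp (π * t / 4) : ℝ) * (Real.exp (-(δ * t)) : ℝ)) := by
    rw [ofReal_exp, ofReal_exp, ← exp_add, ← exp_add, ww]
    congr 1
    push_cast
    linear_combination (-(t : ℂ) / 2 * (π / 2 - 2 * δ)) * I_mul_I
  have h1 := Gamma_quarter_ne_zero (t / 2)
  have h2 : ((‖Gamma (1 / 4 + I * (t / 2 : ℝ))‖ : ℝ) : ℂ) ≠ 0 :=
    ofReal_ne_zero.mpr (norm_pos_iff.mpr h1).ne'
  rw [ofReal_mul, Z_coe, kap, e, Zc, uu]
  generalize exp (-(π / 8 : ℝ) * I) = c
  rw [ofReal_div (Real.exp _ * _), ofReal_mul (Real.exp _)]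
  generalize ((‖Gamma (1 / 4 + I * (t / 2 : ℝ))‖ : ℝ) : ℂ) = n at *
  generalize Gamma (1 / 4 + I * (t / 2 : ℝ)) = g at *
  field_simp

noncomputable def EE (δ : ℝ) : ℂ := exp (-(π / 8 : ℝ) * I) / (√(2 * π) : ℝ) *
  (CC δ * (∑' n : ℕ, hh δ (n + 1) - exp (-(3 / 4 * ww δ)) * Gamma (3 / 4) / 2))

theorem EE_lim : ∃ E : ℝ, E ≤ -(368 / 100) ∧ Tendsto (fun δ => (EE δ).re) (𝓝[>] 0) (𝓝 E) := by
  obtain ⟨S, hS, hlim⟩ := stepF
  have hw : Tendsto ww (𝓝[>] 0) (𝓝 (ww 0)) :=
    tendsto_nhdsWithin_of_tendsto_nhds ((by unfold ww; fun_prop : Continuous ww).tendsto 0)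
  have hC : Tendsto CC (𝓝[>] 0) (𝓝 (CC 0)) :=
    tendsto_nhdsWithin_of_tendsto_nhds ((by unfold CC ww; fun_prop : Continuous CC).tendsto 0)
  have h1 := (hC.mul (hlim.sub ((((hw.const_mul (3 / 4)).neg.cexp).mul_const
    (Gamma (3 / 4))).div_const 2))).const_mul (exp (-(π / 8 : ℝ) * I) / (√(2 * π) : ℝ))
  refine ⟨_, ?_, (continuous_re.tendsto _).comp h1⟩
  have hG : Gamma (3 / 4) = (Real.Gamma (3 / 4) : ℝ) := by
    rw [← Gamma_ofReal]; congr 1; push_cast; ring
  have e1 : exp (-(π / 8 : ℝ) * I) * exp (ww 0 / 2) =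
      (Real.exp (Real.log π / 2) : ℝ) * exp ((π / 8 : ℝ) * I) := by
    rw [ofReal_exp, ← exp_add, ← exp_add, ww]; congr 1; push_cast; ring
  have e2 : exp (-(π / 8 : ℝ) * I) * exp (ww 0 / 2) * exp (-(3 / 4 * ww 0)) =
      (Real.exp (-(Real.log π / 4)) : ℝ) * exp ((-(π / 4) : ℝ) * I) := by
    rw [ofReal_exp, ← exp_add, ← exp_add, ← exp_add, ww]; congr 1; push_cast; ring
  have e3 : exp (-(π / 8 : ℝ) * I) / (√(2 * π) : ℝ) *
      (CC 0 * (S - exp (-(3 / 4 * ww 0)) * Gamma (3 / 4) / 2)) =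
      (4 * π / √(2 * π) * (Real.exp (Real.log π / 2) * S) : ℝ) * exp ((π / 8 : ℝ) * I) -
      (4 * π / √(2 * π) * (Real.exp (-(Real.log π / 4)) * Real.Gamma (3 / 4) / 2) : ℝ) *
        exp ((-(π / 4) : ℝ) * I) := by
    rw [CC, hG]
    generalize exp (-(π / 8 : ℝ) * I) = c1 at e1 e2 ⊢
    generalize exp ((π / 8 : ℝ) * I) = c2 at e1 e2 ⊢
    generalize exp ((-(π / 4) : ℝ) * I) = c3 at e1 e2 ⊢
    simp only [ofReal_mul, ofReal_div, ofReal_ofNat]
    linear_combination (4 * π / (√(2 * π) : ℝ) * S : ℂ) * e1 -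
      (4 * π / (√(2 * π) : ℝ) * (Real.Gamma (3 / 4) : ℝ) / 2 : ℂ) * e2
  rw [e3, sub_re, re_ofReal_mul, re_ofReal_mul, exp_ofReal_mul_I_re, exp_ofReal_mul_I_re,
    Real.cos_neg, Real.cos_pi_div_four]
  have p1 := Real.pi_gt_d2
  have p2 := Real.pi_lt_d2
  have a1 : 5 ≤ 4 * π / √(2 * π) := by
    rw [le_div_iff₀ (Real.sqrt_pos.mpr (by positivity))]
    have h0 := Real.sq_sqrt (show 0 ≤ 2 * π by positivity)
    have : 5 / 2 ≤ √(2 * π) := Real.le_sqrt_of_sq_le (by linarith)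
    nlinarith
  have a2 : 177 / 100 ≤ Real.exp (Real.log π / 2) := by
    refine abs_le_of_sq_le_sq' ?_ (Real.exp_pos _).le |>.2
    rw [← Real.exp_nat_mul, show ((2 : ℕ) : ℝ) * (Real.log π / 2) = Real.log π by push_cast; ring,
      Real.exp_log Real.pi_pos]
    linarith
  have a3 : 3 / 4 ≤ Real.exp (-(Real.log π / 4)) := by
    refine le_of_pow_le_pow_left₀ (n := 4) (by norm_num) (Real.exp_pos _).le ?_
    rw [← Real.exp_nat_mul,
      show ((4 : ℕ) : ℝ) * -(Real.log π / 4) = -Real.log π by push_cast; ring, Real.exp_neg,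
      Real.exp_log Real.pi_pos, le_inv_comm₀ (by norm_num) Real.pi_pos]
    linarith
  have a4 : 92 / 100 ≤ Real.cos (π / 8) := by
    refine le_trans ?_ Real.one_sub_sq_div_two_le_cos
    nlinarith
  have a5 : 1414 / 1000 ≤ √2 := Real.le_sqrt_of_sq_le (by norm_num)
  have a6 := Gamma_three_quarters
  have b1 : 5 * (177 / 100 * (29 / 100)) * (92 / 100) ≤
      4 * π / √(2 * π) * (Real.exp (Real.log π / 2) * -S) * Real.cos (π / 8) := by
    have h29 : 29 / 100 ≤ -S := by linarith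
    have h0 : 0 ≤ -S := by linarith
    generalize -S = S' at h29 h0 ⊢
    gcongr
  have b2 : 5 * (3 / 4 * 1 / 2) * (1414 / 1000 / 2) ≤
      4 * π / √(2 * π) * (Real.exp (-(Real.log π / 4)) * Real.Gamma (3 / 4) / 2) * (√2 / 2) := by
    gcongr
  linarith

theorem lin_exp {r : ℝ} (hr : 0 < r) (α β : ℝ) :
    IntegrableOn (fun t : ℝ => (α + β * t) * Real.exp (-(r * t))) (Ioi 0) ∧
    ∫ t in Ioi 0, (α + β * t) * Real.exp (-(r * t)) = α / r + β / r ^ 2 := by
  have i0 : IntegrableOn (fun t : ℝ => Real.exp (-(r * t))) (Ioi 0) := by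
    simpa using exp_neg_integrableOn_Ioi 0 hr
  have i1 : IntegrableOn (fun t : ℝ => t * Real.exp (-(r * t))) (Ioi 0) := by
    simpa using integrableOn_rpow_mul_exp_neg_mul_rpow (p := 1) (s := 1) (by norm_num) one_pos hr
  have v0 : ∫ t in Ioi 0, Real.exp (-(r * t)) = 1 / r := by
    simpa using Real.integral_rpow_mul_exp_neg_mul_Ioi one_pos hr
  have v1 : ∫ t in Ioi 0, t * Real.exp (-(r * t)) = 1 / r ^ 2 := by
    have := Real.integral_rpow_mul_exp_neg_mul_Ioi two_pos hr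
    rw [show (2 : ℝ) - 1 = 1 by norm_num, Real.Gamma_two] at this
    simpa using this
  have e : (fun t : ℝ => (α + β * t) * Real.exp (-(r * t))) =
      fun t => α * Real.exp (-(r * t)) + β * (t * Real.exp (-(r * t))) := by
    funext t; ring
  rw [e]
  refine ⟨(i0.const_mul α).add (i1.const_mul β), ?_⟩
  rw [integral_add (i0.const_mul α) (i1.const_mul β), integral_const_mul, integral_const_mul, v0, v1]
  ring

theorem max_int : IntegrableOn (fun t : ℝ => (max 1 t) ^ (-(3 / 2) : ℝ)) (Ioi 0) ∧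
    ∫ t in Ioi (0 : ℝ), (max 1 t) ^ (-(3 / 2) : ℝ) = 3 := by
  have hc : Continuous fun t : ℝ => (max 1 t) ^ (-(3 / 2) : ℝ) :=
    Continuous.rpow_const (by fun_prop) fun t =>
      Or.inl (lt_of_lt_of_le one_pos (le_max_left _ _)).ne'
  have e1 : EqOn (fun t : ℝ => (max 1 t) ^ (-(3 / 2) : ℝ)) (fun t => t ^ (-(3 / 2) : ℝ)) (Ioi 1) :=
    fun t ht => by simp only; rw [max_eq_right (le_of_lt ht)]
  have i1 : IntegrableOn (fun t : ℝ => (max 1 t) ^ (-(3 / 2) : ℝ)) (Ioi 1) :=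
    (integrableOn_Ioi_rpow_of_lt (by norm_num) one_pos).congr_fun e1.symm measurableSet_Ioi
  have i0 : IntegrableOn (fun t : ℝ => (max 1 t) ^ (-(3 / 2) : ℝ)) (Ioi 0) := by
    rw [← Ioc_union_Ioi_eq_Ioi zero_le_one]
    exact (hc.integrableOn_Ioc).union i1
  refine ⟨i0, ?_⟩
  rw [← intervalIntegral.integral_interval_add_Ioi i0 i1, setIntegral_congr_fun measurableSet_Ioi e1,
    integral_Ioi_rpow_of_lt (by norm_num) one_pos,
    intervalIntegral.integral_congr (g := fun _ => (1 : ℝ)) (fun t ht => by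
      rw [uIcc_of_le zero_le_one] at ht
      simp only; rw [max_eq_left ht.2, Real.one_rpow])]
  norm_num

theorem phase_term {t : ℝ} (ht : 0 < t) :
    |Z t| * (min (π / 8) (1 / (4 * t)) ^ 2 / 2) ≤ 24 / 100 * (max 1 t) ^ (-(3 / 2) : ℝ) := by
  have hb0 : 0 ≤ min (π / 8) (1 / (4 * t)) := le_min (by positivity) (by positivity)
  rcases le_total t 1 with h | h
  · rw [max_eq_left h, Real.one_rpow]
    have h1 : |Z t| ≤ 3 := by linarith [abs_Z_le t, abs_of_pos ht]
    have h2 : min (π / 8) (1 / (4 * t)) ≤ 315 / 800 :=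
      (min_le_left _ _).trans (by linarith [Real.pi_lt_d2])
    calc _ ≤ 3 * ((315 / 800 : ℝ) ^ 2 / 2) := by gcongr
      _ ≤ _ := by norm_num
  · rw [max_eq_right h]
    have hs : 1 ≤ √t := Real.le_sqrt_of_sq_le (by linarith)
    have hs2 := Real.sq_sqrt ht.le
    have h1 : |Z t| ≤ 64 / 10 * √t := by
      have h3 : √‖sl t‖ ≤ 1225 / 1000 * √t := by
        rw [Real.sqrt_le_left (by positivity)]
        nlinarith [norm_sl_le t, abs_of_pos ht]
      rw [abs_Z]
      linarith [norm_zeta_le_sqrt (sl_re t)]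
    have e : t ^ (-(3 / 2) : ℝ) = √t / t ^ 2 := by
      rw [Real.sqrt_eq_rpow, ← Real.rpow_two, ← Real.rpow_sub ht]; norm_num
    calc _ ≤ 64 / 10 * √t * ((1 / (4 * t)) ^ 2 / 2) := by
          gcongr
          exact min_le_right _ _
      _ = 1 / 5 * (√t / t ^ 2) := by field_simp; ring
      _ ≤ _ := by rw [e]; exact mul_le_mul_of_nonneg_right (by norm_num) (by positivity)

theorem laplace_le {δ : ℝ} (hδ : 0 < δ) (hδ' : δ ≤ 1 / 20) :
    ∫ t in Ioi 0, Z t * Real.exp (-(δ * t)) ≤ (EE δ).re + 339 / 100 := by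
  have hδ2 : δ ≤ 1 / 2 := by linarith
  have hζ : Integrable fun t => kap δ t * riemannZeta (sl t) :=
    integrable_kap_mul hδ hδ2 continuous_zeta_sl.aestronglyMeasurable (C := 1) fun t => by
      linarith [norm_zeta_le_lin (sl_re t), norm_sl_le t]
  have h1 : Integrable fun t => ((Z t * Real.exp (-(δ * t)) : ℝ) : ℂ) * uu t := by
    simpa only [kap_zeta] using hζ.const_mul (exp (-(π / 8 : ℝ) * I) / (√(2 * π) : ℝ))
  let f : ℝ → ℝ := fun t => Z t * Real.exp (-(δ * t)) * (uu t).re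
  have hf : Integrable f := by
    simpa only [RCLike.re_to_complex, re_ofReal_mul] using h1.re
  have h2 : (EE δ).re = ∫ t, f t := by
    rw [EE, ← stepE hδ hδ2, ← integral_const_mul]
    simp only [kap_zeta]
    have := integral_re h1
    simpa only [RCLike.re_to_complex, re_ofReal_mul] using this.symm
  have hf' : IntegrableOn (fun t => f (-t)) (Ioi 0) := hf.comp_neg.integrableOn
  have h3 : (EE δ).re = ∫ t in Ioi 0, (f t + f (-t)) := by
    rw [h2, integral_add hf.integrableOn hf', integral_comp_neg_Ioi, neg_zero, add_comm,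
      intervalIntegral.integral_Iic_add_Ioi hf.integrableOn hf.integrableOn]
  have hL : IntegrableOn (fun t => Z t * Real.exp (-(δ * t))) (Ioi 0) := by
    refine (lin_exp hδ 2 1).1.mono' (Continuous.aestronglyMeasurable (continuous_Z.mul (by fun_prop)))
      ((ae_restrict_iff' measurableSet_Ioi).mpr (Eventually.of_forall fun t ht => ?_))
    rw [norm_mul, Real.norm_of_nonneg (Real.exp_pos _).le, Real.norm_eq_abs]
    gcongr
    linarith [abs_Z_le t, abs_of_pos (show 0 < t from ht)]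
  have l1 := lin_exp (r := 3 / 2) (by norm_num) 3 (3 / 2)
  have hW : IntegrableOn (fun t : ℝ => (3 + 3 / 2 * t) * Real.exp (-(3 / 2 * t)) +
      24 / 100 * (max 1 t) ^ (-(3 / 2) : ℝ)) (Ioi 0) := l1.1.add (max_int.1.const_mul _)
  have hff : IntegrableOn (fun t => f t + f (-t)) (Ioi 0) := hf.integrableOn.add hf'
  calc ∫ t in Ioi 0, Z t * Real.exp (-(δ * t))
      ≤ ∫ t in Ioi 0, ((f t + f (-t)) + ((3 + 3 / 2 * t) * Real.exp (-(3 / 2 * t)) +
          24 / 100 * (max 1 t) ^ (-(3 / 2) : ℝ))) := by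
        refine setIntegral_mono_on hL (hff.add hW) measurableSet_Ioi fun t ht => ?_
        have ht' : 0 < t := ht
        have p1 := Real.pi_gt_d2
        have q1 := re_uu_ge ht'
        have q2 := one_sub_le_mm ht'.le
        have q3 := mm_le_one t
        have q4 : (uu t).re ≤ 1 := (re_le_norm _).trans (by rw [norm_uu]; exact q3)
        have q5 : |(uu (-t)).re| ≤ Real.exp (π * -t / 2) :=
          (abs_re_le_norm _).trans (by rw [norm_uu]; exact mm_le_exp _)
        have q6 : Real.exp (-(π * t)) ≤ Real.exp (-(3 / 2 * t)) :=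
          Real.exp_le_exp.mpr (by nlinarith)
        have q7 : Real.exp (-(δ * t)) ≤ 1 := Real.exp_le_one_iff.mpr (by nlinarith)
        have q8 : Real.exp (-(δ * -t)) * Real.exp (π * -t / 2) ≤ Real.exp (-(3 / 2 * t)) := by
          rw [← Real.exp_add]; exact Real.exp_le_exp.mpr (by nlinarith)
        have q9 := phase_term ht'
        have q10 : |Z t| ≤ 2 + t := by linarith [abs_Z_le t, abs_of_pos ht']
        set b2 := min (π / 8) (1 / (4 * t)) ^ 2 / 2 with hb2
        have hb0 : 0 ≤ b2 := by positivity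
        have r1 : 1 - (uu t).re ≤ Real.exp (-(3 / 2 * t)) / 2 + b2 := by nlinarith
        have r2 : |Real.exp (-(δ * t)) * (1 - (uu t).re) - Real.exp (-(δ * -t)) * (uu (-t)).re| ≤
            3 / 2 * Real.exp (-(3 / 2 * t)) + b2 := by
          refine (abs_sub _ _).trans ?_
          rw [abs_mul, abs_mul, abs_of_pos (Real.exp_pos _), abs_of_pos (Real.exp_pos _),
            abs_of_nonneg (by linarith)]
          have := mul_le_mul_of_nonneg_left q5 (Real.exp_pos (-(δ * -t))).le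
          have := mul_le_of_le_one_left (show 0 ≤ 1 - (uu t).re by linarith) q7
          linarith
        have r3 : Z t * (Real.exp (-(δ * t)) * (1 - (uu t).re) -
            Real.exp (-(δ * -t)) * (uu (-t)).re) ≤ |Z t| * (3 / 2 * Real.exp (-(3 / 2 * t)) + b2) :=
          (le_abs_self _).trans (by rw [abs_mul]; gcongr)
        have r4 := mul_le_mul_of_nonneg_right q10 (Real.exp_pos (-(3 / 2 * t))).le
        simp only [f, Z_neg]
        nlinarith
    _ = (EE δ).re + (3 / (3 / 2) + 3 / 2 / (3 / 2) ^ 2 + 24 / 100 * 3) := by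
        rw [integral_add hff hW, ← h3, integral_add l1.1 (max_int.1.const_mul _), l1.2,
          integral_const_mul, max_int.2]
    _ ≤ _ := by norm_num

end Pool.Agent.MP_6f2ed2_nt.H35
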