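import Mathlib
import Pool.Agent.MP_6f2ed2_nt.H35.Hardy

namespace Pool.Agent.MP_6f2ed2_nt.H35

open Filter Topology Set MeasureTheory
open scoped Real

theorem prim_bound {f : ℝ → ℝ} {C r : ℝ} (hr : 0 < r)
    (hb : ∀ t, 0 ≤ t → |f t| ≤ C * Real.exp (r * t)) {T : ℝ} (hT : 0 ≤ T) :
    |∫ t in (0 : ℝ)..T, f t| ≤ C / r * Real.exp (r * T) := by
  have hC : 0 ≤ C := by simpa using (abs_nonneg _).trans (hb 0 le_rfl)
  have h1 : ∫ t in (0 : ℝ)..T, C * Real.exp (r * t) =
      C / r * Real.exp (r * T) - C / r * Real.exp (r * 0) := by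
    refine intervalIntegral.integral_eq_sub_of_hasDerivAt
      (f := fun t => C / r * Real.exp (r * t)) (fun t _ => ?_) (Continuous.intervalIntegrable (by fun_prop) _ _)
    exact ((((hasDerivAt_id' t).const_mul r).exp).const_mul (C / r)).congr_deriv (by field_simp)
  have h2 := intervalIntegral.norm_integral_le_of_norm_le (μ := volume) (f := f) hT
    (g := fun t => C * Real.exp (r * t)) (Eventually.of_forall fun t ht => hb t ht.1.le)
    (Continuous.intervalIntegrable (by fun_prop) _ _)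
  rw [h1] at h2
  have : 0 ≤ C / r * Real.exp (r * 0) := by positivity
  rw [← Real.norm_eq_abs]
  linarith

theorem exp_int {f : ℝ → ℝ} (hf : Continuous f) {C δ : ℝ} (hδ : 0 < δ)
    (hb : ∀ t, 0 ≤ t → |f t| ≤ C * Real.exp (δ / 2 * t)) :
    IntegrableOn (fun t => f t * Real.exp (-(δ * t))) (Ioi 0) ∧
      Tendsto (fun t => f t * Real.exp (-(δ * t))) atTop (𝓝 0) := by
  have key : ∀ t, 0 ≤ t → ‖f t * Real.exp (-(δ * t))‖ ≤ C * Real.exp (-(δ / 2 * t)) := by
    intro t ht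
    rw [norm_mul, Real.norm_of_nonneg (Real.exp_pos _).le, Real.norm_eq_abs]
    calc _ ≤ C * Real.exp (δ / 2 * t) * Real.exp (-(δ * t)) := by gcongr; exact hb t ht
      _ = _ := by rw [mul_assoc, ← Real.exp_add]; congr 2; ring
  constructor
  · have i0 : IntegrableOn (fun t : ℝ => Real.exp (-(δ / 2 * t))) (Ioi 0) := by
      simpa using exp_neg_integrableOn_Ioi 0 (half_pos hδ)
    exact (i0.const_mul C).mono' (Continuous.aestronglyMeasurable (by fun_prop))
      ((ae_restrict_iff' measurableSet_Ioi).mpr (Eventually.of_forall fun t ht => key t (le_of_lt ht)))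
  · have h0 : Tendsto (fun t : ℝ => C * Real.exp (-(δ / 2 * t))) atTop (𝓝 0) := by
      simpa using (Real.tendsto_exp_neg_atTop_nhds_zero.comp
        (tendsto_id.const_mul_atTop (half_pos hδ))).const_mul C
    exact squeeze_zero_norm' ((eventually_ge_atTop 0).mono key) h0

theorem laplace_prim {f : ℝ → ℝ} (hf : Continuous f) {C δ : ℝ} (hδ : 0 < δ)
    (hb : ∀ t, 0 ≤ t → |f t| ≤ C * Real.exp (δ / 2 * t)) :
    ∫ t in Ioi 0, f t * Real.exp (-(δ * t)) =
      δ * ∫ t in Ioi 0, (∫ x in (0 : ℝ)..t, f x) * Real.exp (-(δ * t)) := by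
  have hP : ∀ t, HasDerivAt (fun t => ∫ x in (0 : ℝ)..t, f x) (f t) t := fun t =>
    (hf.integral_hasStrictDerivAt 0 t).hasDerivAt
  have hPc : Continuous fun t => ∫ x in (0 : ℝ)..t, f x :=
    continuous_iff_continuousAt.mpr fun t => (hP t).continuousAt
  have h1 := exp_int hf hδ hb
  have h2 := exp_int hPc hδ fun t ht => prim_bound (half_pos hδ) hb ht
  have h3 := integral_Ioi_mul_deriv_eq_deriv_mul (a := 0) (a' := 0) (b' := 0)
    (u := fun t => ∫ x in (0 : ℝ)..t, f x) (u' := f) (v := fun t => Real.exp (-(δ * t)))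
    (v' := fun t => -δ * Real.exp (-(δ * t))) (fun t _ => hP t)
    (fun t _ => ((hasDerivAt_id' t).const_mul δ).fun_neg.exp.congr_deriv (by ring))
    ((h2.1.const_mul (-δ)).congr (Eventually.of_forall fun t => by simp only [Pi.mul_apply]; ring))
    h1.1
    (by
      have : Continuous fun t => (∫ x in (0 : ℝ)..t, f x) * Real.exp (-(δ * t)) := by fun_prop
      simpa [Pi.mul_def] using tendsto_nhdsWithin_of_tendsto_nhds (this.tendsto 0))
    h2.2
  have h4 : ∫ t in Ioi 0, (∫ x in (0 : ℝ)..t, f x) * (-δ * Real.exp (-(δ * t))) =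
      -δ * ∫ t in Ioi 0, (∫ x in (0 : ℝ)..t, f x) * Real.exp (-(δ * t)) := by
    rw [← integral_const_mul]; congr 1; funext t; ring
  linarith

theorem continuous_F : Continuous F :=
  continuous_iff_continuousAt.mpr fun t =>
    (continuous_Z.integral_hasStrictDerivAt 0 t).hasDerivAt.continuousAt

theorem continuous_G : Continuous G :=
  continuous_iff_continuousAt.mpr fun t =>
    (continuous_F.integral_hasStrictDerivAt 0 t).hasDerivAt.continuousAt

theorem laplace_G {δ : ℝ} (hδ : 0 < δ) :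
    IntegrableOn (fun t => G t * Real.exp (-(δ * t))) (Ioi 0) ∧
    ∫ t in Ioi 0, Z t * Real.exp (-(δ * t)) = δ * (δ * ∫ t in Ioi 0, G t * Real.exp (-(δ * t))) := by
  have b0 : ∀ t, 0 ≤ t → |Z t| ≤ (2 + 2 / δ) * Real.exp (δ / 2 * t) := by
    intro t ht
    have h1 := Real.add_one_le_exp (δ / 2 * t)
    have h2 : 0 ≤ δ / 2 * t := by positivity
    have h3 : t ≤ 2 / δ * Real.exp (δ / 2 * t) := by
      rw [div_mul_eq_mul_div, le_div_iff₀ hδ]; linarith
    linarith [abs_Z_le t, abs_of_nonneg ht]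
  have b1 : ∀ t, 0 ≤ t → |F t| ≤ (2 + 2 / δ) / (δ / 2) * Real.exp (δ / 2 * t) :=
    fun t ht => prim_bound (half_pos hδ) b0 ht
  have b2 : ∀ t, 0 ≤ t → |G t| ≤ (2 + 2 / δ) / (δ / 2) / (δ / 2) * Real.exp (δ / 2 * t) :=
    fun t ht => prim_bound (half_pos hδ) b1 ht
  refine ⟨(exp_int continuous_G hδ b2).1, ?_⟩
  rw [laplace_prim continuous_Z hδ b0]
  exact congrArg _ (laplace_prim continuous_F hδ b1)

theorem frequently_G_le : ∃ᶠ T in atTop, G T ≤ -(T / 4) := by
  intro h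
  obtain ⟨T0, hT0⟩ := eventually_atTop.mp h
  obtain ⟨M, hM⟩ := isCompact_Icc.exists_bound_of_continuousOn
    (continuous_G.continuousOn (s := Icc 0 T0))
  have hG : ∀ t, 0 ≤ t → -|M| + -(1 / 4) * t ≤ G t := by
    intro t ht
    rcases le_total t T0 with h1 | h1
    · have := hM t ⟨ht, h1⟩
      rw [Real.norm_eq_abs] at this
      linarith [neg_abs_le (G t), le_abs_self M]
    · have := not_le.mp (hT0 t h1)
      linarith [abs_nonneg M]
  obtain ⟨E, hE, hlim⟩ := EE_lim
  have key : ∀ᶠ δ in 𝓝[>] (0 : ℝ), -|M| * δ + -(1 / 4) ≤ (EE δ).re + 339 / 100 := by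
    filter_upwards [Ioc_mem_nhdsGT (show (0 : ℝ) < 1 / 20 by norm_num)] with δ hδ
    have h1 := laplace_G hδ.1
    have h2 := lin_exp hδ.1 (-|M|) (-(1 / 4))
    have h3 := setIntegral_mono_on h2.1 h1.1 measurableSet_Ioi fun t ht =>
      mul_le_mul_of_nonneg_right (hG t (le_of_lt ht)) (Real.exp_pos _).le
    have h4 := laplace_le hδ.1 hδ.2
    have h5 := mul_le_mul_of_nonneg_left (mul_le_mul_of_nonneg_left h3 hδ.1.le) hδ.1.le
    rw [h2.2, ← h1.2] at h5
    have h6 : δ * (δ * (-|M| / δ + -(1 / 4) / δ ^ 2)) = -|M| * δ + -(1 / 4) := by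
      have := hδ.1.ne'
      field_simp
    linarith
  have h0 : Tendsto (fun δ : ℝ => -|M| * δ + -(1 / 4)) (𝓝[>] 0) (𝓝 (-|M| * 0 + -(1 / 4))) :=
    tendsto_nhdsWithin_of_tendsto_nhds ((by fun_prop : Continuous fun δ : ℝ =>
      -|M| * δ + -(1 / 4)).tendsto 0)
  have := le_of_tendsto_of_tendsto h0 (hlim.add_const (339 / 100)) key
  linarith

end Pool.Agent.MP_6f2ed2_nt.H35
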